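import Pool.Agent.P.MP_80f86c_co.Chain

/-!
A finite quotient of the free product `A * A * A` without short coset cycles.
-/

namespace Pool.Agent.P.MP_80f86c_co

open Monoid

/-- the free product of three copies of `A` -/
abbrev U (A : Type) [Group A] : Type := CoprodI (fun _ : Fin 3 => A)

variable {A : Type} [Group A]

/-- the factor number `l` -/
def gen (l : Fin 3) : A →* U A := CoprodI.of (M := fun _ : Fin 3 => A) (i := l)

/-- extension of three homomorphisms -/
def lift3 {G : Type} [Monoid G] (f : Fin 3 → A →* G) : U A →* G :=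
  CoprodI.lift (M := fun _ : Fin 3 => A) f

@[simp] lemma lift3_gen {G : Type} [Monoid G] (f : Fin 3 → A →* G) (l : Fin 3) (a : A) :
    lift3 f (gen l a) = f l a := CoprodI.lift_of (M := fun _ : Fin 3 => A) f a

lemma hom_ext3 {G : Type} [Monoid G] {f g : U A →* G} (h : ∀ l a, f (gen l a) = g (gen l a)) :
    f = g := CoprodI.ext_hom f g fun l => MonoidHom.ext fun a => h l a

lemma ind3 {P : U A → Prop} (u : U A) (h1 : P 1) (h2 : ∀ l a u, P u → P (gen l a * u)) : P u :=
  CoprodI.induction_left u h1 fun {l} a u hu => h2 l a u hu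

/-- kill the factor `k` -/
def ret (k : Fin 3) : U A →* U A := lift3 fun l => if l = k then 1 else gen l

/-- kill all factors but `m` -/
def proj (m : Fin 3) : U A →* A := lift3 fun l => if l = m then MonoidHom.id A else 1

lemma ret_gen_self (k : Fin 3) (a : A) : ret k (gen k a) = 1 := by simp [ret]

lemma ret_gen_ne {k l : Fin 3} (h : l ≠ k) (a : A) : ret k (gen l a) = gen l a := by simp [ret, h]

lemma proj_gen_self (k : Fin 3) (a : A) : proj k (gen k a) = a := by simp [proj]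

lemma proj_gen_ne {k l : Fin 3} (h : l ≠ k) (a : A) : proj k (gen l a) = 1 := by simp [proj, h]

lemma ret_ret (k : Fin 3) (u : U A) : ret k (ret k u) = ret k u := by
  have : (ret k).comp (ret k) = (ret k : U A →* U A) := by
    refine hom_ext3 fun l a => ?_
    by_cases h : l = k
    · subst h; simp [ret_gen_self]
    · simp [ret_gen_ne h]
  exact DFunLike.congr_fun this u

lemma proj_ret (k : Fin 3) (u : U A) : proj k (ret k u) = 1 := by
  have : (proj k).comp (ret k) = (1 : U A →* A) := by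
    refine hom_ext3 fun l a => ?_
    by_cases h : l = k
    · subst h; simp [ret_gen_self]
    · simp [ret_gen_ne h, proj_gen_ne h]
  exact DFunLike.congr_fun this u

/-- the subgroup generated by the factors other than `k` -/
def Hs (k : Fin 3) : Subgroup (U A) := (ret k).range

lemma gen_mem_Hs {k l : Fin 3} (h : l ≠ k) (a : A) : gen l a ∈ Hs k := ⟨gen l a, ret_gen_ne h a⟩

/-- the intersection of the kernels of all actions on at most `M` points that kill `W` -/
def core (W : Set (U A)) (M : ℕ) : Subgroup (U A) :=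
  ⨅ p : {p : Σ m : Fin (M + 1), (U A →* Equiv.Perm (Fin m)) // ∀ w ∈ W, p.2 w = 1}, p.1.2.ker

instance core_normal (W : Set (U A)) (M : ℕ) : (core W M).Normal :=
  Subgroup.normal_iInf_normal fun _ => inferInstance

instance finite_hom [Finite A] {G : Type} [Monoid G] [Finite G] : Finite (U A →* G) :=
  have : Finite (A →* G) := DFunLike.finite _
  Finite.of_equiv _ (CoprodI.lift (M := fun _ : Fin 3 => A) (N := G))

instance core_finiteIndex [Finite A] (W : Set (U A)) (M : ℕ) : (core W M).FiniteIndex :=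
  Subgroup.finiteIndex_iInf fun _ => inferInstance

lemma mem_core_of_mem {W : Set (U A)} (M : ℕ) {w : U A} (hw : w ∈ W) : w ∈ core W M :=
  Subgroup.mem_iInf.2 fun p => p.2 w hw

lemma core_fix {W : Set (U A)} {M : ℕ} {Z : Type} (φ : U A →* Equiv.Perm Z) {S : Set Z}
    (hS : S.Finite) (hM : S.ncard ≤ M) (hinv : ∀ l a, ∀ z ∈ S, φ (gen l a) z ∈ S)
    (hW : ∀ w ∈ W, ∀ z ∈ S, φ w z = z) {u : U A} (hu : u ∈ core W M) : ∀ z ∈ S, φ u z = z := by
  have hinv' : ∀ u, ∀ z ∈ S, φ u z ∈ S := by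
    intro u
    refine ind3 (P := fun u => ∀ z ∈ S, φ u z ∈ S) u (by simp) ?_
    intro l a u ih z hz
    rw [map_mul]
    exact hinv l a _ (ih z hz)
  have hiff : ∀ u z, φ u z ∈ S ↔ z ∈ S := fun u z =>
    ⟨fun h => by simpa using hinv' u⁻¹ _ h, hinv' u z⟩
  let ψ : U A →* Equiv.Perm S :=
    { toFun := fun u => (φ u).subtypePerm (hiff u)
      map_one' := by ext z; simp
      map_mul' := fun u v => by ext z; simp }
  have : Finite S := hS
  let e : S ≃ Fin S.ncard := Finite.equivFinOfCardEq (Nat.card_coe_set_eq S)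
  let χ : U A →* Equiv.Perm (Fin S.ncard) := e.permCongrHom.toMonoidHom.comp ψ
  have hχ : ∀ w, χ w = 1 ↔ ψ w = 1 := fun w => e.permCongrHom.map_eq_one_iff
  have hW' : ∀ w ∈ W, χ w = 1 := by
    intro w hw
    rw [hχ]
    ext z
    simpa [ψ] using hW w hw z z.2
  have h1 : χ u = 1 :=
    Subgroup.mem_iInf.1 hu ⟨⟨⟨S.ncard, Nat.lt_succ_of_le hM⟩, χ⟩, hW'⟩
  rw [hχ] at h1
  intro z hz
  have := congrArg (fun σ : Equiv.Perm S => (σ ⟨z, hz⟩ : Z)) h1
  simpa [ψ] using this

lemma proj_eq_one_of_mem_core [Finite A] {M : ℕ} (hM : Nat.card A ≤ M) (m : Fin 3) {u : U A}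
    (hu : u ∈ core ∅ M) : proj m u = 1 := by
  have := core_fix ((MulAction.toPermHom A A).comp (proj m)) (S := Set.univ) Set.finite_univ
    (by simpa [Set.ncard_univ] using hM) (by simp) (by simp) hu 1 (Set.mem_univ _)
  simpa using this

variable (A) in
/-- first level -/
noncomputable def K0 (N : ℕ) : Subgroup (U A) := core ∅ ((N + 1) * Nat.card A + 1)

instance (N : ℕ) : (K0 A N).Normal := core_normal _ _

instance [Finite A] (N : ℕ) : (K0 A N).FiniteIndex := core_finiteIndex _ _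

variable (A) in
/-- second level -/
noncomputable def K1 (N : ℕ) : Subgroup (U A) :=
  K0 A N ⊓ core (⋃ k, ((K0 A N ⊓ Hs k : Subgroup (U A)) : Set (U A))) (N * Nat.card (U A ⧸ K0 A N))

instance (N : ℕ) : (K1 A N).Normal := by unfold K1; infer_instance

instance [Finite A] (N : ℕ) : (K1 A N).FiniteIndex := by unfold K1; infer_instance

lemma proj_eq_one_of_mem_K0 [Finite A] {N : ℕ} (m : Fin 3) {u : U A} (hu : u ∈ K0 A N) :
    proj m u = 1 :=
  proj_eq_one_of_mem_core (by nlinarith [Nat.zero_le (N * Nat.card A)]) m hu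

lemma mem_K1_of {N : ℕ} {k : Fin 3} {w : U A} (h0 : w ∈ K0 A N) (hk : w ∈ Hs k) : w ∈ K1 A N :=
  ⟨h0, mem_core_of_mem _ (Set.mem_iUnion.2 ⟨k, h0, hk⟩)⟩

/-- the chain attached to a sequence -/
noncomputable def mkChain (N n : ℕ) (κ : ℕ → Fin 3) (x : ℕ → U A) : Chain A (U A ⧸ K0 A N) where
  ι l := (QuotientGroup.mk' (K0 A N)).comp (gen l)
  n := n
  κ := κ
  h i := QuotientGroup.mk' (K0 A N) (x i)

lemma mkChain_disjoint [Finite A] (N n : ℕ) (κ : ℕ → Fin 3) (x : ℕ → U A) (l m : Fin 3)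
    (h : l ≠ m) (a b : A) (hab : (mkChain N n κ x).ι l a = (mkChain N n κ x).ι m b) :
    (mkChain N n κ x).ι l a = 1 := by
  have h1 : (gen l a)⁻¹ * gen m b ∈ K0 A N := QuotientGroup.eq.1 hab
  have h2 := proj_eq_one_of_mem_K0 l h1
  rw [map_mul, map_inv, proj_gen_self, proj_gen_ne h.symm, mul_one, inv_eq_one] at h2
  rw [h2, map_one]

lemma rho_ret {N n : ℕ} {κ : ℕ → Fin 3} {x : ℕ → U A} (hc : (mkChain N n κ x).Valid) {i : ℕ}
    (hi : i < n) (u : U A) : ∀ y, lift3 (Chain.actHom hc) (ret (κ i) u) ((mkChain N n κ x).nu i y)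
      = (mkChain N n κ x).nu i (y * (QuotientGroup.mk' (K0 A N) (ret (κ i) u))⁻¹) := by
  refine ind3 (P := fun u => ∀ y, lift3 (Chain.actHom hc) (ret (κ i) u)
    ((mkChain N n κ x).nu i y) =
      (mkChain N n κ x).nu i (y * (QuotientGroup.mk' (K0 A N) (ret (κ i) u))⁻¹)) u (by simp) ?_
  intro l a u ih y
  by_cases hl : l = κ i
  · rw [map_mul, hl, ret_gen_self, one_mul]; exact ih y
  · rw [map_mul, ret_gen_ne hl, map_mul, Equiv.Perm.mul_apply, ih, lift3_gen, Chain.actHom_apply,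
      Chain.act_nu hc hi hl, map_mul, mul_inv_rev, mul_assoc]
    rfl

lemma rho_Hs {N n : ℕ} {κ : ℕ → Fin 3} {x : ℕ → U A} (hc : (mkChain N n κ x).Valid) {i : ℕ}
    (hi : i < n) {w : U A} (hw : w ∈ Hs (κ i)) (y) :
    lift3 (Chain.actHom hc) w ((mkChain N n κ x).nu i y)
      = (mkChain N n κ x).nu i (y * (QuotientGroup.mk' (K0 A N) w)⁻¹) := by
  obtain ⟨u, rfl⟩ := hw
  exact rho_ret hc hi u y

lemma rho_kills [Finite A] {N n : ℕ} (hn : n ≤ N) {κ : ℕ → Fin 3} {x : ℕ → U A}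
    (hc : (mkChain N n κ x).Valid) {k : Fin 3} {w : U A} (h0 : w ∈ K0 A N) (hk : w ∈ Hs k)
    (p : ℕ × (U A ⧸ K0 A N)) : lift3 (Chain.actHom hc) w p = p := by
  by_cases hp : p ∈ (mkChain N n κ x).T k
  · obtain ⟨S, hS, hcard, hpS, hinv⟩ :=
      Chain.exists_small hc (mkChain_disjoint N n κ x) k hp
    have hcard' : S.ncard ≤ (N + 1) * Nat.card A + 1 := by
      refine hcard.trans ?_
      have : n * Nat.card A ≤ (N + 1) * Nat.card A := Nat.mul_le_mul_right _ (by omega)
      exact Nat.succ_le_succ this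
    have := core_fix ((lift3 (Chain.actHom hc)).comp (ret k)) hS hcard' ?_ (by simp) h0 p hpS
    · obtain ⟨u, rfl⟩ := hk
      simpa [ret_ret] using this
    · intro l a z hz
      by_cases hl : l = k
      · subst hl; simpa [ret_gen_self] using hz
      · simpa [ret_gen_ne hl] using hinv l hl a z hz
  · obtain ⟨i, y, hi, hki, rfl⟩ := not_not.1 hp
    have hki' : κ i = k := hki
    rw [rho_Hs hc hi (hki' ▸ hk), (QuotientGroup.eq_one_iff w).2 h0 |> fun h =>
      show QuotientGroup.mk' (K0 A N) w = 1 from h]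
    simp

/-- No short coset cycles. -/
theorem acyclic [Finite A] {N n : ℕ} (hn3 : 3 ≤ n) (hn : n ≤ N) (κ : ℕ → Fin 3) (x : ℕ → U A)
    (hκ : ∀ i, i + 1 < n → κ i ≠ κ (i + 1)) (hx : ∀ i, i < n → (x i)⁻¹ * x (i + 1) ∈ Hs (κ i))
    (h0 : x 0 = 1) (hK : x n ∈ K1 A N) :
    ∃ i a b, i + 2 < n ∧ (x (i + 1) * gen (third (κ i) (κ (i + 1))) a)⁻¹ *
      (x (i + 2) * gen (third (κ (i + 1)) (κ (i + 2))) b) ∈ K1 A N := by
  by_contra hcon
  have hc : (mkChain N n κ x).Valid := by
    refine ⟨hκ, ?_⟩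
    rintro i y ⟨hi1, a, ha⟩ ⟨hi2, b, hb⟩
    have hi1' : i + 1 < n := hi1
    have hi2' : i + 2 < n := hi2
    refine hcon ⟨i, a, b, hi2', mem_K1_of (k := κ (i + 1)) ?_ ?_⟩
    · exact QuotientGroup.eq.1 (ha.symm.trans hb)
    · rw [mul_inv_rev, mul_assoc, ← mul_assoc (x (i + 1))⁻¹]
      exact Subgroup.mul_mem _
        (Subgroup.inv_mem _ (gen_mem_Hs (third_ne_right (hκ i hi1')) a))
        (Subgroup.mul_mem _ (hx (i + 1) hi1') (gen_mem_Hs (third_ne_left (hκ (i + 1) hi2')) b))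
  set c := mkChain N n κ x with hcdef
  set ρ := lift3 (Chain.actHom hc) with hρ
  have hstep : ∀ i, i < n → ρ (x (i + 1))⁻¹ (0, 1) = c.nu i (c.h (i + 1)) := by
    intro i
    induction i with
    | zero =>
      intro hi
      have h1 : ((0, 1) : ℕ × (U A ⧸ K0 A N)) = c.nu 0 1 := (Chain.nu_of_not (by simp)).symm
      have h2 := hx 0 hi
      rw [h0, inv_one, one_mul] at h2
      rw [h1, rho_Hs hc hi (Subgroup.inv_mem _ h2)]
      simp [hcdef, mkChain]
    | succ i ih =>
      intro hi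
      have hR : c.R i (c.h (i + 1)) := ⟨hi, 1, by simp⟩
      have h1 : (x (i + 1 + 1))⁻¹ = ((x (i + 1))⁻¹ * x (i + 1 + 1))⁻¹ * (x (i + 1))⁻¹ := by group
      rw [h1, map_mul, Equiv.Perm.mul_apply, ih (by omega), Chain.nu_of_R hc hR,
        ← Chain.nu_succ hR, rho_Hs hc hi (Subgroup.inv_mem _ (hx (i + 1) hi))]
      simp [hcdef, mkChain]
  have hfix : ρ (x n)⁻¹ (0, 1) = (0, 1) := by
    refine core_fix ρ (S := Set.Iio n ×ˢ Set.univ) ((Set.finite_Iio n).prod Set.finite_univ) ?_ ?_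
      ?_ (Subgroup.inv_mem _ hK.2) (0, 1) ⟨show 0 < n by omega, Set.mem_univ _⟩
    · rw [Set.ncard_prod, Set.ncard_univ]
      refine Nat.mul_le_mul_right _ ?_
      rw [← Finset.coe_range, Set.ncard_coe_finset, Finset.card_range]
      exact hn
    · intro l a z hz
      refine ⟨?_, Set.mem_univ _⟩
      rw [hρ, lift3_gen]
      exact Chain.act_fst_lt hc l a hz.1
    · intro w hw z _
      obtain ⟨k, hk⟩ := Set.mem_iUnion.1 hw
      exact rho_kills hn hc hk.1 hk.2 z
  obtain ⟨m, rfl⟩ : ∃ m, n = m + 1 := ⟨n - 1, by omega⟩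
  rw [hstep m (by omega)] at hfix
  have := Chain.le_nu_fst (c := c) m (c.h (m + 1))
  rw [hfix] at this
  simp only at this
  omega

end Pool.Agent.P.MP_80f86c_co
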