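import Pool.Agent.P.MP_80f86c_co.Defs

/-!
Basic facts: transfer to `Fin n`, disjoint sums and padding by single edges.
-/

namespace Pool.Agent.P.MP_80f86c_co

open SimpleGraph

/-- number of edges -/
noncomputable abbrev ec {V : Type} (G : SimpleGraph V) : ℕ := G.edgeSet.ncard

/-- number of `s`-cliques -/
noncomputable abbrev kc (s : ℕ) {V : Type} (G : SimpleGraph V) : ℕ := (G.cliqueSet s).ncard

lemma ec_iso {V V' : Type} {G : SimpleGraph V} {H : SimpleGraph V'} (e : G ≃g H) :
    ec G = ec H := by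
  unfold ec
  rw [← Nat.card_coe_set_eq, ← Nat.card_coe_set_eq]
  exact Nat.card_congr e.mapEdgeSet

lemma isNClique_map_copy {V V' : Type} {G : SimpleGraph V} {H : SimpleGraph V'} (f : Copy G H)
    {s : ℕ} {t : Finset V} (ht : G.IsNClique s t) : H.IsNClique s (t.map f.toEmbedding) := by
  refine ⟨?_, by simp [ht.card_eq]⟩
  intro x hx y hy hxy
  simp only [Finset.coe_map, Set.mem_image, Finset.mem_coe] at hx hy
  obtain ⟨a, ha, rfl⟩ := hx
  obtain ⟨b, hb, rfl⟩ := hy
  have hab : a ≠ b := fun h => hxy (by rw [h])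
  exact f.toHom.map_rel (ht.isClique ha hb hab)

lemma kc_le_of_copy {V V' : Type} [Finite V'] {G : SimpleGraph V} {H : SimpleGraph V'}
    (f : Copy G H) (s : ℕ) : kc s G ≤ kc s H := by
  refine Set.ncard_le_ncard_of_injOn (fun t => t.map f.toEmbedding) ?_ ?_ (Set.toFinite _)
  · intro t ht
    exact isNClique_map_copy f ht
  · intro a _ b _ hab
    exact Finset.map_injective _ hab

lemma ncard_support_le {V : Type} [Finite V] (G : SimpleGraph V) :
    G.support.ncard ≤ 2 * ec G := by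
  classical
  have := Fintype.ofFinite V
  have h1 : G.support.toFinset ⊆ G.edgeFinset.biUnion (fun e => e.toFinset) := by
    intro v hv
    simp only [Set.mem_toFinset, mem_support] at hv
    obtain ⟨w, hw⟩ := hv
    simp only [Finset.mem_biUnion, mem_edgeFinset]
    exact ⟨s(v, w), hw, by simp⟩
  have h2 : (G.edgeFinset.biUnion (fun e => e.toFinset)).card ≤ G.edgeFinset.card * 2 := by
    refine Finset.card_biUnion_le_card_mul _ _ _ ?_
    intro e _
    induction e using Sym2.ind with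
    | h a b =>
      rw [Sym2.toFinset_mk_eq]
      exact Finset.card_le_two
  rw [Set.ncard_eq_toFinset_card' G.support]
  have h3 : ec G = G.edgeFinset.card := by
    unfold ec
    rw [← SimpleGraph.coe_edgeFinset, Set.ncard_coe_finset]
  have := Finset.card_le_card h1
  omega

lemma kc_le_two_pow {V : Type} [Finite V] (G : SimpleGraph V) {s : ℕ} (hs : 2 ≤ s) :
    kc s G ≤ 2 ^ (2 * ec G) := by
  classical
  have := Fintype.ofFinite V
  have h1 : G.cliqueSet s ⊆ (G.support.toFinset.powerset : Set (Finset V)) := by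
    intro t ht
    simp only [Finset.coe_powerset, Set.coe_toFinset, Set.mem_preimage, Set.mem_powerset_iff]
    intro v hv
    have hc : 1 < t.card := by rw [ht.card_eq]; omega
    obtain ⟨w, hw, hwv⟩ := Finset.exists_mem_ne hc v
    exact ⟨w, ht.isClique hv hw hwv.symm⟩
  have h2 := Set.ncard_le_ncard h1 (Set.toFinite _)
  rw [Set.ncard_coe_finset, Finset.card_powerset, ← Set.ncard_eq_toFinset_card' G.support] at h2
  exact h2.trans (Nat.pow_le_pow_right (by norm_num) (ncard_support_le G))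

lemma bddAbove_mex {s : ℕ} (hs : 2 ≤ s) (m : ℕ) {W : Type} (F : SimpleGraph W) :
    BddAbove {k : ℕ | ∃ (n : ℕ) (G : SimpleGraph (Fin n)),
      F.Free G ∧ G.edgeSet.ncard = m ∧ (G.cliqueSet s).ncard = k} := by
  refine ⟨2 ^ (2 * m), ?_⟩
  rintro k ⟨n, G, -, rfl, rfl⟩
  exact kc_le_two_pow G hs

lemma le_mex {s : ℕ} (hs : 2 ≤ s) {m : ℕ} {W : Type} {F : SimpleGraph W} {V : Type} [Finite V]
    (G : SimpleGraph V) (hF : F.Free G) (hm : ec G = m) : kc s G ≤ mex s m F := by
  classical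
  have := Fintype.ofFinite V
  let e : G ≃g G.map (Fintype.equivFin V).toEmbedding := SimpleGraph.Iso.map (Fintype.equivFin V) G
  refine (kc_le_of_copy e.toCopy s).trans ?_
  refine le_csSup (bddAbove_mex hs m F) ⟨_, _, ?_, ?_, rfl⟩
  · exact (free_congr_right e).1 hF
  · rw [← hm]; exact (ec_iso e).symm

lemma mex_le {s m : ℕ} {W : Type} {F : SimpleGraph W} {B : ℝ} (hB : 0 ≤ B)
    (h : ∀ (n : ℕ) (G : SimpleGraph (Fin n)), F.Free G → ec G = m → (kc s G : ℝ) ≤ B) :
    (mex s m F : ℝ) ≤ B := by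
  have : mex s m F ≤ ⌊B⌋₊ := by
    refine csSup_le' ?_
    rintro k ⟨n, G, hF, hm, rfl⟩
    exact Nat.le_floor (h n G hF hm)
  exact (Nat.cast_le.2 this).trans (Nat.floor_le hB)

lemma mex_eq_zero {s : ℕ} {W : Type} {F : SimpleGraph W}
    (h : F ⊑ (⊤ : SimpleGraph (Fin s))) (m : ℕ) : mex s m F = 0 := by
  have : (mex s m F : ℝ) ≤ 0 := by
    refine mex_le le_rfl ?_
    intro n G hF _
    have : G.CliqueFree s := by
      by_contra hc
      exact hF (h.trans ((not_cliqueFree_iff_top_isContained s).1 hc))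
    simp [kc, cliqueSet_eq_empty_iff.2 this]
  exact_mod_cast le_antisymm this (Nat.cast_nonneg _)

lemma ec_sum {V V' : Type} [Finite V] [Finite V'] (G : SimpleGraph V) (H : SimpleGraph V') :
    ec (G ⊕g H) = ec G + ec H := by
  unfold ec
  rw [← Nat.card_coe_set_eq, ← Nat.card_coe_set_eq, ← Nat.card_coe_set_eq,
    Nat.card_congr edgeSetSumEquiv, Nat.card_sum]

lemma kc_sum {V V' : Type} [Finite V] [Finite V'] (G : SimpleGraph V) (H : SimpleGraph V')
    {s : ℕ} (hs : 1 ≤ s) : kc s G + kc s H ≤ kc s (G ⊕g H) := by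
  let f : Copy G (G ⊕g H) := Embedding.sumInl.toCopy
  let g : Copy H (G ⊕g H) := Embedding.sumInr.toCopy
  have hf : ((fun t : Finset V => t.map f.toEmbedding) '' G.cliqueSet s).ncard = kc s G :=
    Set.ncard_image_of_injective _ (Finset.map_injective _)
  have hg : ((fun t : Finset V' => t.map g.toEmbedding) '' H.cliqueSet s).ncard = kc s H :=
    Set.ncard_image_of_injective _ (Finset.map_injective _)
  rw [← hf, ← hg, ← Set.ncard_union_eq]
  · refine Set.ncard_le_ncard ?_ (Set.toFinite _)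
    rintro t (⟨a, ha, rfl⟩ | ⟨a, ha, rfl⟩)
    · exact isNClique_map_copy f ha
    · exact isNClique_map_copy g ha
  · rw [Set.disjoint_left]
    rintro t ⟨a, ha, rfl⟩ ⟨b, hb, hab⟩
    have hne : a.Nonempty := by
      rw [← Finset.card_pos, ha.card_eq]; omega
    obtain ⟨x, hx⟩ := hne
    have : f.toEmbedding x ∈ b.map g.toEmbedding := by
      simp only at hab
      rw [hab]; exact Finset.mem_map_of_mem _ hx
    obtain ⟨y, -, hy⟩ := Finset.mem_map.1 this
    exact Sum.inr_ne_inl hy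

/-- A homomorphism from a preconnected graph into a disjoint sum lands in one side. -/
lemma hom_sum_side {W V V' : Type} {F : SimpleGraph W} (hF : F.Preconnected) {G : SimpleGraph V}
    {H : SimpleGraph V'} (f : F →g (G ⊕g H)) :
    (∀ w, ∃ a, f w = Sum.inl a) ∨ (∀ w, ∃ b, f w = Sum.inr b) := by
  by_contra hcon
  push Not at hcon
  obtain ⟨⟨w₁, h₁⟩, ⟨w₂, h₂⟩⟩ := hcon
  have hr : (G ⊕g H).Reachable (f w₂) (f w₁) := (hF w₂ w₁).map f
  rcases h1 : f w₁ with a | a
  · exact h₁ a h1
  rcases h2 : f w₂ with b | b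
  · rw [h1, h2] at hr
    exact not_reachable_sum_inl_inr _ _ hr
  · exact h₂ b h2

lemma free_sum {W V V' : Type} {F : SimpleGraph W} (hF : F.Preconnected) {G : SimpleGraph V}
    {H : SimpleGraph V'} (hG : F.Free G) (hH : F.Free H) : F.Free (G ⊕g H) := by
  rintro ⟨f⟩
  rcases hom_sum_side hF f.toHom with h | h
  · choose g hg using h
    refine hG ⟨⟨⟨g, fun {a b} hab => ?_⟩, fun a b hab => f.injective ?_⟩⟩
    · have := f.toHom.map_rel hab
      rw [hg, hg] at this
      exact sum_adj_inl.1 this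
    · rw [hg, hg]; exact congrArg _ hab
  · choose g hg using h
    refine hH ⟨⟨⟨g, fun {a b} hab => ?_⟩, fun a b hab => f.injective ?_⟩⟩
    · have := f.toHom.map_rel hab
      rw [hg, hg] at this
      exact sum_adj_inr.1 this
    · rw [hg, hg]; exact congrArg _ hab

lemma not_ind_sum {W V V' : Type} {F : SimpleGraph W} (hF : F.Preconnected) {G : SimpleGraph V}
    {H : SimpleGraph V'} (hG : ¬ F ⊴ G) (hH : ¬ F ⊴ H) : ¬ F ⊴ (G ⊕g H) := by
  rintro ⟨f⟩
  rcases hom_sum_side hF f.toHom with h | h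
  · choose g hg using h
    have hg' : ∀ w, f w = Sum.inl (g w) := hg
    refine hG ⟨⟨⟨g, fun a b hab => f.injective ?_⟩, fun {a b} => ?_⟩⟩
    · rw [hg', hg']; exact congrArg _ hab
    · rw [← f.map_rel_iff, hg', hg']
      exact sum_adj_inl.symm
  · choose g hg using h
    have hg' : ∀ w, f w = Sum.inr (g w) := hg
    refine hH ⟨⟨⟨g, fun a b hab => f.injective ?_⟩, fun {a b} => ?_⟩⟩
    · rw [hg', hg']; exact congrArg _ hab
    · rw [← f.map_rel_iff, hg', hg']
      exact sum_adj_inr.symm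

/-- `(m, k)` is achieved by a finite graph with property `P`. -/
def Ach (P : ∀ V : Type, SimpleGraph V → Prop) (s m k : ℕ) : Prop :=
  ∃ (V : Type) (_ : Finite V) (G : SimpleGraph V), P V G ∧ ec G = m ∧ k ≤ kc s G

/-- `P` is closed under disjoint sums and holds for a single edge and for the empty graph. -/
structure Closed (P : ∀ V : Type, SimpleGraph V → Prop) : Prop where
  sum : ∀ (V V' : Type) (G : SimpleGraph V) (H : SimpleGraph V'), P V G → P V' H →
    P (V ⊕ V') (G ⊕g H)
  edge : P (Fin 2) ⊤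
  empty : P (Fin 0) ⊥

lemma Ach.add {P : ∀ V : Type, SimpleGraph V → Prop} (hP : Closed P) {s m k m' k' : ℕ}
    (hs : 1 ≤ s) (h : Ach P s m k) (h' : Ach P s m' k') : Ach P s (m + m') (k + k') := by
  obtain ⟨V, _, G, hG, rfl, hk⟩ := h
  obtain ⟨V', _, H, hH, rfl, hk'⟩ := h'
  exact ⟨V ⊕ V', inferInstance, G ⊕g H, hP.sum _ _ _ _ hG hH, ec_sum G H,
    (add_le_add hk hk').trans (kc_sum G H hs)⟩

lemma Ach.zero {P : ∀ V : Type, SimpleGraph V → Prop} (hP : Closed P) (s : ℕ) : Ach P s 0 0 :=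
  ⟨Fin 0, inferInstance, ⊥, hP.empty, by simp [ec], Nat.zero_le _⟩

lemma Ach.one {P : ∀ V : Type, SimpleGraph V → Prop} (hP : Closed P) (s : ℕ) : Ach P s 1 0 := by
  refine ⟨Fin 2, inferInstance, ⊤, hP.edge, ?_, Nat.zero_le _⟩
  unfold ec
  rw [← SimpleGraph.coe_edgeFinset, Set.ncard_coe_finset]
  decide

lemma Ach.mul {P : ∀ V : Type, SimpleGraph V → Prop} (hP : Closed P) {s m k : ℕ}
    (hs : 1 ≤ s) (h : Ach P s m k) (t : ℕ) : Ach P s (t * m) (t * k) := by
  induction t with
  | zero => simpa using Ach.zero hP s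
  | succ t ih => rw [Nat.succ_mul, Nat.succ_mul]; exact ih.add hP hs h

lemma Ach.pad {P : ∀ V : Type, SimpleGraph V → Prop} (hP : Closed P) {s m k : ℕ}
    (hs : 1 ≤ s) (h : Ach P s m k) {M : ℕ} (hM : m ≤ M) : Ach P s M k := by
  have := h.add hP hs ((Ach.one hP s).mul hP hs (M - m))
  simpa [Nat.add_sub_cancel' hM] using this

lemma Ach.div {P : ∀ V : Type, SimpleGraph V → Prop} (hP : Closed P) {s m k : ℕ}
    (hs : 1 ≤ s) (h : Ach P s m k) (M : ℕ) : Ach P s M (M / m * k) :=
  (h.mul hP hs (M / m)).pad hP hs (Nat.div_mul_le_self M m)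

lemma Ach.le_mex {P : ∀ V : Type, SimpleGraph V → Prop} {s m k : ℕ} (hs : 2 ≤ s)
    {W : Type} {F : SimpleGraph W} (hF : ∀ V G, P V G → F.Free G) (h : Ach P s m k) :
    k ≤ mex s m F := by
  obtain ⟨V, _, G, hG, hm, hk⟩ := h
  exact hk.trans (MP_80f86c_co.le_mex hs G (hF V G hG) hm)

lemma free_of_card_lt {W V : Type} [Finite W] [Finite V] (F : SimpleGraph W) (G : SimpleGraph V)
    (h : Nat.card V < Nat.card W) : F.Free G := by
  rintro ⟨f⟩
  have := Nat.card_le_card_of_injective _ f.injective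
  omega

lemma closed_free {W : Type} [Finite W] {F : SimpleGraph W} (hF : F.Preconnected)
    (h3 : 3 ≤ Nat.card W) : Closed (fun _ G => F.Free G) where
  sum := fun _ _ _ _ hG hH => free_sum hF hG hH
  edge := free_of_card_lt _ _ (by simp; omega)
  empty := free_of_card_lt _ _ (by simp; omega)

end Pool.Agent.P.MP_80f86c_co
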