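import Mathlib

/-!
Amalgamation chains. A group `G` comes with three homomorphisms `ι l : A →* G`. A chain glues
copies `{i} × G` of `G` along cosets of the images of `A`; copy number `i` carries the right
multiplication action of the two factors `l ≠ κ i`.
-/

namespace Pool.Agent.P.MP_80f86c_co

/-- the third element of `Fin 3` -/
def third (k l : Fin 3) : Fin 3 := -(k + l)

lemma third_ne_left {k l : Fin 3} (h : k ≠ l) : third k l ≠ k := by
  revert k l; decide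

lemma third_ne_right {k l : Fin 3} (h : k ≠ l) : third k l ≠ l := by
  revert k l; decide

lemma eq_third {k l m : Fin 3} (h : k ≠ l) (h1 : m ≠ k) (h2 : m ≠ l) : m = third k l := by
  revert k l m; decide

/-- the data of a chain -/
structure Chain (A G : Type) [Group A] [Group G] where
  ι : Fin 3 → A →* G
  n : ℕ
  κ : ℕ → Fin 3
  h : ℕ → G

namespace Chain

variable {A G : Type} [Group A] [Group G] (c : Chain A G)

/-- the type of the overlap of copies `i` and `i + 1` -/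
def j (i : ℕ) : Fin 3 := third (c.κ i) (c.κ (i + 1))

/-- the overlap of copies `i` and `i + 1` -/
def R (i : ℕ) (y : G) : Prop := i + 1 < c.n ∧ ∃ a, y = c.h (i + 1) * c.ι (c.j i) a

/-- validity of a chain -/
structure Valid : Prop where
  ne : ∀ i, i + 1 < c.n → c.κ i ≠ c.κ (i + 1)
  disj : ∀ i y, c.R i y → c.R (i + 1) y → False

open Classical in
/-- normal form of a point -/
noncomputable def nu (i : ℕ) (y : G) : ℕ × G :=
  if i ≠ 0 ∧ c.R (i - 1) y then (i - 1, y) else (i, y)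

open Classical in
/-- the action of the factor `l` -/
noncomputable def act (l : Fin 3) (a : A) (p : ℕ × G) : ℕ × G :=
  if c.n ≤ p.1 ∨ (p.1 ≠ 0 ∧ c.R (p.1 - 1) p.2) then p
  else if l ≠ c.κ p.1 then c.nu p.1 (p.2 * (c.ι l a)⁻¹)
  else if c.R p.1 p.2 then c.nu (p.1 + 1) (p.2 * (c.ι l a)⁻¹) else p

variable {c}

lemma R_mul {i : ℕ} {y : G} (hy : c.R i y) (a : A) : c.R i (y * c.ι (c.j i) a) := by
  obtain ⟨hi, b, rfl⟩ := hy
  exact ⟨hi, b * a, by rw [map_mul, mul_assoc]⟩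

lemma nu_succ {i : ℕ} {y : G} (hy : c.R i y) : c.nu (i + 1) y = (i, y) := by
  simp [nu, hy]

lemma nu_of_not {i : ℕ} {y : G} (hy : ¬ (i ≠ 0 ∧ c.R (i - 1) y)) : c.nu i y = (i, y) := by
  simp only [nu, hy, if_false]

lemma nu_of_R (hc : c.Valid) {i : ℕ} {y : G} (hy : c.R i y) : c.nu i y = (i, y) := by
  refine nu_of_not ?_
  rintro ⟨hi, h⟩
  obtain ⟨i, rfl⟩ := Nat.exists_eq_succ_of_ne_zero hi
  exact hc.disj i y h hy

lemma nu_fst_le (i : ℕ) (y : G) : (c.nu i y).1 ≤ i := by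
  unfold nu; split_ifs <;> simp

lemma le_nu_fst (i : ℕ) (y : G) : i - 1 ≤ (c.nu i y).1 := by
  unfold nu; split_ifs <;> simp

lemma nu_eq_nu {i i' : ℕ} {y y' : G} (h : c.nu i y = c.nu i' y') :
    y' = y ∧ (i' = i ∨ (i' = i + 1 ∧ c.R i y) ∨ (i = i' + 1 ∧ c.R i' y)) := by
  unfold nu at h
  split_ifs at h with h1 h2 h2 <;> obtain ⟨ha, hb⟩ := Prod.mk.inj h <;> subst hb
  · exact ⟨rfl, Or.inl (by omega)⟩
  · exact ⟨rfl, Or.inr (Or.inr ⟨by omega, ha ▸ h1.2⟩)⟩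
  · exact ⟨rfl, Or.inr (Or.inl ⟨by omega, ha ▸ h2.2⟩)⟩
  · exact ⟨rfl, Or.inl ha.symm⟩

lemma act_nu (hc : c.Valid) {l : Fin 3} {i : ℕ} (hi : i < c.n) (hl : l ≠ c.κ i) (a : A) (y : G) :
    c.act l a (c.nu i y) = c.nu i (y * (c.ι l a)⁻¹) := by
  by_cases hg : i ≠ 0 ∧ c.R (i - 1) y
  · obtain ⟨hi0, hR⟩ := hg
    obtain ⟨i, rfl⟩ := Nat.exists_eq_succ_of_ne_zero hi0
    have hR : c.R i y := hR
    rw [nu_succ hR]
    have hng : ¬ (c.n ≤ i ∨ (i ≠ 0 ∧ c.R (i - 1) y)) := by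
      rintro (h | ⟨h0, h⟩)
      · omega
      · obtain ⟨i, rfl⟩ := Nat.exists_eq_succ_of_ne_zero h0
        exact hc.disj i y h hR
    unfold act
    simp only [hng, if_false]
    by_cases hl' : l ≠ c.κ i
    · simp only [hl', ne_eq, not_false_eq_true, if_true]
      have hj : l = c.j i := eq_third (hc.ne i hi) hl' hl
      have hR' : c.R i (y * (c.ι l a)⁻¹) := by
        rw [← map_inv, hj]; exact R_mul hR _
      rw [nu_of_R hc hR', nu_succ hR']
    · simp only [hl', if_false, hR, if_true]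
  · rw [nu_of_not hg]
    have hng : ¬ (c.n ≤ i ∨ (i ≠ 0 ∧ c.R (i - 1) y)) := by
      rintro (h | h)
      · omega
      · exact hg h
    unfold act
    simp only [hng, if_false, hl, ne_eq, not_false_eq_true, if_true]

lemma active_or_fixed (l : Fin 3) (p : ℕ × G) :
    (∃ i y, i < c.n ∧ l ≠ c.κ i ∧ p = c.nu i y) ∨ (∀ a, c.act l a p = p) ∨
      (l = c.κ p.1 ∧ c.R p.1 p.2) := by
  obtain ⟨i, y⟩ := p
  by_cases hg : c.n ≤ i ∨ (i ≠ 0 ∧ c.R (i - 1) y)
  · right; left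
    intro a
    unfold act
    simp only [hg, if_true]
  · by_cases hl : l ≠ c.κ i
    · left
      exact ⟨i, y, by omega, hl, (nu_of_not (fun h => hg (Or.inr h))).symm⟩
    · by_cases hR : c.R i y
      · right; right
        exact ⟨not_not.1 hl, hR⟩
      · right; left
        intro a
        unfold act
        simp only [hg, if_false, hl, hR]

lemma active_or_fixed' (hc : c.Valid) (l : Fin 3) (p : ℕ × G) :
    (∃ i y, i < c.n ∧ l ≠ c.κ i ∧ p = c.nu i y) ∨ (∀ a, c.act l a p = p) := by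
  rcases active_or_fixed (c := c) l p with h | h | ⟨h1, h2⟩
  · exact Or.inl h
  · exact Or.inr h
  · exact Or.inl ⟨p.1 + 1, p.2, h2.1, h1 ▸ hc.ne _ h2.1, (nu_succ h2).symm⟩

lemma act_one (hc : c.Valid) (l : Fin 3) (p : ℕ × G) : c.act l 1 p = p := by
  rcases active_or_fixed' hc l p with ⟨i, y, hi, hl, rfl⟩ | h
  · rw [act_nu hc hi hl]; simp
  · exact h 1

lemma act_mul (hc : c.Valid) (l : Fin 3) (a b : A) (p : ℕ × G) :
    c.act l (a * b) p = c.act l a (c.act l b p) := by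
  rcases active_or_fixed' hc l p with ⟨i, y, hi, hl, rfl⟩ | h
  · rw [act_nu hc hi hl, act_nu hc hi hl, act_nu hc hi hl, map_mul, mul_inv_rev, mul_assoc]
  · rw [h, h, h]

/-- the action of the factor `l` as a homomorphism to permutations -/
noncomputable def actHom (hc : c.Valid) (l : Fin 3) : A →* Equiv.Perm (ℕ × G) where
  toFun a := ⟨c.act l a, c.act l a⁻¹,
    fun p => by rw [← act_mul hc, inv_mul_cancel, act_one hc],
    fun p => by rw [← act_mul hc, mul_inv_cancel, act_one hc]⟩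
  map_one' := Equiv.ext fun p => act_one hc l p
  map_mul' a b := Equiv.ext fun p => act_mul hc l a b p

@[simp] lemma actHom_apply (hc : c.Valid) (l : Fin 3) (a : A) (p : ℕ × G) :
    actHom hc l a p = c.act l a p := rfl

lemma act_fst_lt (hc : c.Valid) (l : Fin 3) (a : A) {p : ℕ × G} (hp : p.1 < c.n) :
    (c.act l a p).1 < c.n := by
  rcases active_or_fixed' hc l p with ⟨i, y, hi, hl, rfl⟩ | h
  · rw [act_nu hc hi hl]; exact lt_of_le_of_lt (nu_fst_le _ _) hi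
  · rw [h]; exact hp

/-- monotone chains of cosets avoiding the copies of type `k` -/
inductive Rel (c : Chain A G) (k : Fin 3) (i₀ : ℕ) (y₀ : G) : ℕ → G → Prop
  | base (a : A) : Rel c k i₀ y₀ i₀ (y₀ * c.ι (third k (c.κ i₀)) a)
  | up {i : ℕ} {y : G} (a : A) : Rel c k i₀ y₀ i y → c.R i y → c.κ (i + 1) ≠ k →
      Rel c k i₀ y₀ (i + 1) (y * c.ι (third k (c.κ (i + 1))) a)

variable {k : Fin 3} {i₀ : ℕ} {y₀ : G}

lemma Rel.le {i : ℕ} {y : G} (h : Rel c k i₀ y₀ i y) : i₀ ≤ i := by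
  induction h with
  | base a => exact le_rfl
  | up a _ _ _ ih => omega

lemma Rel.mul {i : ℕ} {y : G} (h : Rel c k i₀ y₀ i y) (b : A) :
    Rel c k i₀ y₀ i (y * c.ι (third k (c.κ i)) b) := by
  induction h with
  | base a => rw [mul_assoc, ← map_mul]; exact .base _
  | up a h1 h2 h3 _ => rw [mul_assoc, ← map_mul]; exact .up _ h1 h2 h3

lemma Rel.ne {i : ℕ} {y : G} (h : Rel c k i₀ y₀ i y) (h0 : c.κ i₀ ≠ k) : c.κ i ≠ k := by
  induction h with
  | base a => exact h0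
  | up a _ _ h3 _ => exact h3

lemma Rel.lt {i : ℕ} {y : G} (h : Rel c k i₀ y₀ i y) (h0 : i₀ < c.n) : i < c.n := by
  induction h with
  | base a => exact h0
  | up a _ h2 _ _ => exact h2.1

lemma Rel.inv {i : ℕ} {y : G} (h : Rel c k i₀ y₀ i y) :
    (i = i₀ ∧ ∃ a, y = y₀ * c.ι (third k (c.κ i₀)) a) ∨
      ∃ i' z a, i = i' + 1 ∧ Rel c k i₀ y₀ i' z ∧ c.R i' z ∧ c.κ (i' + 1) ≠ k ∧
        y = z * c.ι (third k (c.κ (i' + 1))) a := by
  induction h with
  | base a => exact Or.inl ⟨rfl, a, rfl⟩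
  | up a h1 h2 h3 _ => exact Or.inr ⟨_, _, a, rfl, h1, h2, h3, rfl⟩

/-- two points of an overlap of type `k` differing by another factor are equal -/
lemma eq_of_R (hc : c.Valid) (hι : ∀ l m, l ≠ m → ∀ a b, c.ι l a = c.ι m b → c.ι l a = 1)
    {i : ℕ} {z z' : G} (hz : c.R i z) (hz' : c.R i z') (h1 : c.κ i ≠ k) (h2 : c.κ (i + 1) ≠ k)
    {l : Fin 3} (hl : l ≠ k) {a : A} (h : z' = z * c.ι l a) : z' = z := by
  have hj : k = c.j i := eq_third (hc.ne i hz.1) h1.symm h2.symm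
  obtain ⟨-, b, hb⟩ := hz
  obtain ⟨-, b', hb'⟩ := hz'
  rw [← hj] at hb hb'
  have : c.ι l a = c.ι k (b⁻¹ * b') := by
    rw [map_mul, map_inv, eq_inv_mul_iff_mul_eq]
    rw [hb, hb', mul_assoc] at h
    exact (mul_left_cancel h).symm
  rw [h, hι l k hl _ _ this, mul_one]

lemma Rel.unique (hc : c.Valid) (hι : ∀ l m, l ≠ m → ∀ a b, c.ι l a = c.ι m b → c.ι l a = 1)
    (h0 : c.κ i₀ ≠ k) {i : ℕ} {y : G} (h : Rel c k i₀ y₀ i y) :
    ∀ y', Rel c k i₀ y₀ i y' → ∃ a, y' = y * c.ι (third k (c.κ i)) a := by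
  induction h with
  | base a =>
    intro y' h'
    rcases h'.inv with ⟨-, a', rfl⟩ | ⟨i', z, a', hi, hz, -⟩
    · exact ⟨a⁻¹ * a', by rw [mul_assoc, ← map_mul, mul_inv_cancel_left]⟩
    · have := hz.le; omega
  | @up i y a h1 h2 h3 ih =>
    intro y' h'
    rcases h'.inv with ⟨hi, -⟩ | ⟨i', z, a', hi, hz, hR, -, rfl⟩
    · have := h1.le; omega
    · obtain rfl : i = i' := by omega
      obtain ⟨b, hb⟩ := ih z hz
      have hzy : z = y := eq_of_R hc hι h2 hR (h1.ne h0) h3 (third_ne_left (h1.ne h0).symm) hb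
      subst hzy
      exact ⟨a⁻¹ * a', by rw [mul_assoc, ← map_mul, mul_inv_cancel_left]⟩

lemma Rel.trans_down {i' : ℕ} {z : G} (hR : c.R i' z) (hk : c.κ (i' + 1) ≠ k) {b : A}
    {i : ℕ} {y : G} (h : Rel c k (i' + 1) (z * c.ι (third k (c.κ (i' + 1))) b) i y) :
    Rel c k i' z i y := by
  induction h with
  | base a =>
    rw [mul_assoc, ← map_mul]
    refine .up _ ?_ hR hk
    simpa using Rel.base (c := c) (k := k) (i₀ := i') (y₀ := z) 1
  | up a _ h2 h3 ih => exact .up a ih h2 h3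

/-- points lying in no copy of type `k` -/
def T (c : Chain A G) (k : Fin 3) : Set (ℕ × G) :=
  {p | ¬ ∃ i y, i < c.n ∧ c.κ i = k ∧ p = c.nu i y}

lemma act_mem_T (hc : c.Valid) {l : Fin 3} (hl : l ≠ k) (a : A) {p : ℕ × G} (hp : p ∈ c.T k) :
    c.act l a p ∈ c.T k := by
  rintro ⟨i, y, hi, hk, h⟩
  refine hp ⟨i, y * (c.ι l a⁻¹)⁻¹, hi, hk, ?_⟩
  rw [← act_nu hc hi (hk ▸ hl), ← h, ← act_mul hc, inv_mul_cancel, act_one hc]

/-- the orbits outside the copies of type `k` are small -/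
theorem exists_small [Finite A] (hc : c.Valid)
    (hι : ∀ l m, l ≠ m → ∀ a b, c.ι l a = c.ι m b → c.ι l a = 1) (k : Fin 3) {p : ℕ × G}
    (hp : p ∈ c.T k) : ∃ S : Set (ℕ × G), S.Finite ∧ S.ncard ≤ c.n * Nat.card A + 1 ∧ p ∈ S ∧
      ∀ l, l ≠ k → ∀ a, ∀ q ∈ S, c.act l a q ∈ S := by
  classical
  by_cases hact : ∃ i y, i < c.n ∧ p = c.nu i y
  swap
  · refine ⟨{p}, Set.finite_singleton p, by simp, rfl, fun l _ a q hq => ?_⟩
    rw [Set.mem_singleton_iff.1 hq]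
    rcases active_or_fixed' hc l p with ⟨i, y, hi, -, h⟩ | h
    · exact absurd ⟨i, y, hi, h⟩ hact
    · exact h a
  obtain ⟨i₁, y₁, hi₁, hp₁⟩ := hact
  have hk₁ : c.κ i₁ ≠ k := fun h => hp ⟨i₁, y₁, hi₁, h, hp₁⟩
  have hex : ∃ i₀, i₀ < c.n ∧ c.κ i₀ ≠ k ∧ ∃ y₀, Rel c k i₀ y₀ i₁ y₁ :=
    ⟨i₁, hi₁, hk₁, y₁, by simpa using Rel.base (c := c) (k := k) (i₀ := i₁) (y₀ := y₁) 1⟩
  obtain ⟨hi₀, hk₀, y₀, hrel⟩ := Nat.find_spec hex
  set i₀ := Nat.find hex with hi₀def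
  have hchoice : ∀ i, ∃ z, ∀ y, Rel c k i₀ y₀ i y → ∃ a, y = z * c.ι (third k (c.κ i)) a := by
    intro i
    by_cases h : ∃ z, Rel c k i₀ y₀ i z
    · obtain ⟨z, hz⟩ := h
      exact ⟨z, hz.unique hc hι hk₀⟩
    · exact ⟨1, fun y hy => absurd ⟨y, hy⟩ h⟩
  choose z hz using hchoice
  let S : Set (ℕ × G) := {q | q ∈ c.T k ∧ ∃ i y, Rel c k i₀ y₀ i y ∧ q = c.nu i y}
  let f : Fin c.n × A → ℕ × G := fun x => c.nu x.1 (z x.1 * c.ι (third k (c.κ x.1)) x.2)
  have hsub : S ⊆ Set.range f := by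
    rintro q ⟨-, i, y, hy, rfl⟩
    obtain ⟨a, rfl⟩ := hz i y hy
    exact ⟨(⟨i, hy.lt hi₀⟩, a), rfl⟩
  have hfin : (Set.range f).Finite := Set.finite_range f
  refine ⟨S, hfin.subset hsub, ?_, ⟨hp, i₁, y₁, hrel, hp₁⟩, ?_⟩
  · refine (Set.ncard_le_ncard hsub hfin).trans ?_
    rw [← Set.image_univ]
    refine (Set.ncard_image_le (Set.toFinite _)).trans ?_
    simp [Set.ncard_univ]
  · rintro l hl a q ⟨hqT, i, y, hy, hq⟩
    refine ⟨act_mem_T hc hl a hqT, ?_⟩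
    rcases active_or_fixed' hc l q with ⟨i', y', hi', hl', hq'⟩ | h
    swap
    · rw [h]; exact ⟨i, y, hy, hq⟩
    have hk' : c.κ i' ≠ k := fun h => hqT ⟨i', y', hi', h, hq'⟩
    have hl3 : l = third k (c.κ i') := eq_third hk'.symm hl hl'
    obtain ⟨rfl, hcase⟩ := nu_eq_nu (hq.symm.trans hq')
    have hrel' : Rel c k i₀ y₀ i' y' := by
      rcases hcase with rfl | ⟨rfl, hR⟩ | ⟨rfl, hR⟩
      · exact hy
      · simpa using Rel.up 1 hy hR hk'
      · rcases hy.inv with ⟨hi, b, hb⟩ | ⟨i'', w, b, hi, hw, hRw, hkw, hb⟩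
        · exfalso
          refine Nat.find_min hex (m := i') (by omega) ⟨hi', hk', y', ?_⟩
          have hk'' : c.κ (i' + 1) ≠ k := hi ▸ hk₀
          refine Rel.trans_down hR hk'' (b := b⁻¹) ?_
          rw [hi, hb, mul_assoc, ← map_mul, mul_inv_cancel, map_one, mul_one]
          exact hrel
        · obtain rfl : i' = i'' := by omega
          have := eq_of_R hc hι hRw hR hk' hkw (third_ne_left hkw.symm) hb
          rw [this]; exact hw
    refine ⟨i', y' * (c.ι l a)⁻¹, ?_, ?_⟩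
    · rw [← map_inv, hl3]; exact hrel'.mul _
    · rw [hq', act_nu hc hi' hl']

end Chain

end Pool.Agent.P.MP_80f86c_co
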