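import Pool.Agent.P.MP_80f86c_co.Linear

/-!
Dirac's lemma: a chordal graph has a simplicial vertex in every nonempty finite vertex set.
-/

namespace Pool.Agent.P.MP_80f86c_co

open SimpleGraph

lemma cycleGraph_adj_iff {L : ℕ} (hL : 3 ≤ L) (i j : Fin L) :
    (cycleGraph L).Adj i j ↔ (i.val + 1 = j.val ∨ j.val + 1 = i.val ∨
      (i.val = 0 ∧ j.val + 1 = L) ∨ (j.val = 0 ∧ i.val + 1 = L)) := by
  rw [cycleGraph_adj']
  have hi := i.isLt
  have hj := j.isLt
  rcases lt_trichotomy i j with h | h | h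
  · rw [Fin.coe_sub_iff_lt.2 h, Fin.coe_sub_iff_le.2 h.le]
    have : i.val < j.val := h
    omega
  · subst h
    rw [Fin.coe_sub_iff_le.2 le_rfl]
    omega
  · rw [Fin.coe_sub_iff_lt.2 h, Fin.coe_sub_iff_le.2 h.le]
    have : j.val < i.val := h
    omega

lemma indCycle_of_fun {W : Type} {H : SimpleGraph W} {L : ℕ} (hL : 3 ≤ L) (q : ℕ → W)
    (hinj : ∀ i j, i < j → j < L → q i ≠ q j)
    (hadj : ∀ i j, i < j → j < L → (H.Adj (q i) (q j) ↔ (i + 1 = j ∨ (i = 0 ∧ j + 1 = L)))) :
    cycleGraph L ⊴ H := by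
  refine ⟨⟨⟨fun i => q i.val, ?_⟩, ?_⟩⟩
  · intro i j h
    rcases lt_trichotomy i j with h' | h' | h'
    · exact absurd h (hinj _ _ h' j.isLt)
    · exact h'
    · exact absurd h.symm (hinj _ _ h' i.isLt)
  · intro i j
    rw [cycleGraph_adj_iff hL]
    simp only [Function.Embedding.coeFn_mk]
    have hi := i.isLt
    have hj := j.isLt
    rcases lt_trichotomy i j with h' | h' | h'
    · have h'' : i.val < j.val := h'
      rw [hadj _ _ h' hj]; omega
    · subst h'
      simp only [SimpleGraph.irrefl, false_iff]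
      omega
    · have h'' : j.val < i.val := h'
      rw [H.adj_comm, hadj _ _ h' hi]; omega

/-- a walk from `s` to `t` of length `n` with interior in `A` -/
def Via {W : Type} (H : SimpleGraph W) (A : Finset W) (s t : W) (n : ℕ) (p : ℕ → W) : Prop :=
  p 0 = s ∧ p n = t ∧ (∀ i, i < n → H.Adj (p i) (p (i + 1))) ∧ ∀ i, 0 < i → i < n → p i ∈ A

lemma Via.snoc {W : Type} {H : SimpleGraph W} {A : Finset W} {s t u : W} {n : ℕ} {p : ℕ → W}
    (h : Via H A s t n p) (ht : 0 < n → t ∈ A) (htu : H.Adj t u) :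
    Via H A s u (n + 1) (fun i => if i ≤ n then p i else u) := by
  obtain ⟨h0, hn, hadj, hA⟩ := h
  refine ⟨by simp [h0], by simp, fun i hi => ?_, fun i hi hi' => ?_⟩
  · by_cases h1 : i < n
    · simp only [h1.le, if_true, show i + 1 ≤ n from h1]
      exact hadj i h1
    · have : i = n := by omega
      subst this
      simp [hn, htu]
  · have h1 : i ≤ n := by omega
    simp only [h1, if_true]
    by_cases h2 : i < n
    · exact hA i hi h2
    · have : i = n := by omega
      subst this
      rw [hn]; exact ht hi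

lemma Via.shortcut {W : Type} {H : SimpleGraph W} {A : Finset W} {s t : W} {n : ℕ} {p : ℕ → W}
    (h : Via H A s t n p) {i j : ℕ} (hij : i + 1 < j) (hj : j ≤ n) (hadj' : H.Adj (p i) (p j)) :
    Via H A s t (n - (j - i - 1)) (fun k => if k ≤ i then p k else p (k + (j - i - 1))) := by
  obtain ⟨h0, hn, hadj, hA⟩ := h
  refine ⟨by simp [h0], ?_, fun k hk => ?_, fun k hk hk' => ?_⟩
  · have h1 : ¬ (n - (j - i - 1) ≤ i) := by omega
    simp only [h1, if_false]
    rw [show n - (j - i - 1) + (j - i - 1) = n by omega, hn]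
  · rcases lt_trichotomy k i with h1 | h1 | h1
    · simp only [h1.le, if_true, show k + 1 ≤ i from h1]
      exact hadj k (by omega)
    · subst h1
      simp only [le_refl, if_true, show ¬ (k + 1 ≤ k) by omega, if_false]
      rw [show k + 1 + (j - k - 1) = j by omega]
      exact hadj'
    · simp only [show ¬ (k ≤ i) by omega, show ¬ (k + 1 ≤ i) by omega, if_false]
      rw [show k + 1 + (j - i - 1) = k + (j - i - 1) + 1 by omega]
      exact hadj _ (by omega)
  · by_cases h1 : k ≤ i
    · simp only [h1, if_true]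
      exact hA k hk (by omega)
    · simp only [h1, if_false]
      exact hA _ (by omega) (by omega)

/-- connectivity inside a finite vertex set -/
def ConnIn {W : Type} (H : SimpleGraph W) (A : Finset W) : Prop :=
  ∀ a ∈ A, ∀ a' ∈ A, Relation.ReflTransGen (fun u v => H.Adj u v ∧ u ∈ A ∧ v ∈ A) a a'

lemma exists_via {W : Type} {H : SimpleGraph W} {A : Finset W} (hA : ConnIn H A) {s t a a' : W}
    (ha : a ∈ A) (ha' : a' ∈ A) (hs : H.Adj s a) (ht : H.Adj a' t) :
    ∃ n p, Via H A s t n p := by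
  have h1 : ∀ x, Relation.ReflTransGen (fun u v => H.Adj u v ∧ u ∈ A ∧ v ∈ A) a x →
      ∃ n p, Via H A s x n p := by
    intro x hx
    induction hx with
    | refl =>
      have h0 : Via H A s s 0 (fun _ => s) := ⟨rfl, rfl, by omega, by omega⟩
      exact ⟨_, _, h0.snoc (by omega) hs⟩
    | tail _ huv ih =>
      obtain ⟨n, p, hp⟩ := ih
      exact ⟨_, _, hp.snoc (fun _ => huv.2.1) huv.1⟩
  obtain ⟨n, p, hp⟩ := h1 a' (hA a ha a' ha')
  exact ⟨_, _, hp.snoc (fun _ => ha') ht⟩

lemma ConnIn.insert {W : Type} [DecidableEq W] {H : SimpleGraph W} {A : Finset W}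
    (hA : ConnIn H A) {s a : W} (ha : a ∈ A) (hs : H.Adj s a) : ConnIn H (insert s A) := by
  have hmono : ∀ x y, Relation.ReflTransGen (fun u v => H.Adj u v ∧ u ∈ A ∧ v ∈ A) x y →
      Relation.ReflTransGen (fun u v => H.Adj u v ∧ u ∈ Insert.insert s A ∧
        v ∈ Insert.insert s A) x y := by
    intro x y h
    induction h with
    | refl => exact .refl
    | tail _ huv ih =>
      exact ih.tail ⟨huv.1, Finset.mem_insert_of_mem huv.2.1, Finset.mem_insert_of_mem huv.2.2⟩
  intro x hx y hy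
  rcases Finset.mem_insert.1 hx with rfl | hx' <;> rcases Finset.mem_insert.1 hy with rfl | hy'
  · exact .refl
  · exact .head ⟨hs, hx, Finset.mem_insert_of_mem ha⟩ (hmono _ _ (hA a ha y hy'))
  · exact .tail (hmono _ _ (hA x hx' a ha)) ⟨hs.symm, Finset.mem_insert_of_mem ha, hy⟩
  · exact hmono _ _ (hA x hx' y hy')

lemma adj_of_chordal {W : Type} {H : SimpleGraph W} (hH : IsChordal H) {A : Finset W}
    (hA : ConnIn H A) {s t a a' b : W} (ha : a ∈ A) (ha' : a' ∈ A) (hs : H.Adj s a)
    (ht : H.Adj a' t) (htA : t ∉ A) (hst : s ≠ t) (hbs : H.Adj s b) (hbt : H.Adj t b)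
    (hbA : b ∉ A) (hb : ∀ x ∈ A, ¬ H.Adj x b) : H.Adj s t := by
  classical
  by_contra hnadj
  have hex : ∃ n, ∃ p, Via H A s t n p := exists_via hA ha ha' hs ht
  obtain ⟨p, hp⟩ := Nat.find_spec hex
  set n := Nat.find hex with hn
  have hmin : ∀ k, k < n → ∀ p', ¬ Via H A s t k p' := fun k hk p' h =>
    Nat.find_min hex hk ⟨p', h⟩
  have hchord : ∀ i j, i + 1 < j → j ≤ n → ¬ H.Adj (p i) (p j) := fun i j hij hj h =>
    hmin _ (by omega) _ (hp.shortcut hij hj h)
  obtain ⟨h0, hn', hadj, hin⟩ := hp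
  have hn2 : 2 ≤ n := by
    by_contra hlt
    have : n = 0 ∨ n = 1 := by omega
    rcases this with h | h
    · rw [h] at hn'; exact hst (h0.symm.trans hn')
    · have := hadj 0 (by omega)
      rw [h] at hn'
      rw [h0, zero_add, hn'] at this
      exact hnadj this
  have hinj : ∀ i j, i < j → j ≤ n → p i ≠ p j := by
    intro i j hij hj h
    by_cases hjn : j < n
    · have := hadj j hjn
      rw [← h] at this
      exact hchord i (j + 1) (by omega) hjn this
    · have hjn' : j = n := by omega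
      rw [hjn', hn'] at h
      by_cases hi : i = 0
      · rw [hi, h0] at h; exact hst h
      · exact htA (h ▸ hin i (by omega) (by omega))
  refine hH (n + 2) (by omega) (indCycle_of_fun (by omega) (fun i => if i ≤ n then p i else b)
    ?_ ?_)
  · intro i j hij hj
    have hi : i ≤ n := by omega
    by_cases hjn : j ≤ n
    · simp only [hi, hjn, if_true]; exact hinj i j hij hjn
    · simp only [hi, hjn, if_true, if_false]
      intro h
      by_cases hi0 : i = 0
      · rw [hi0, h0] at h; exact hbs.ne h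
      · by_cases hin' : i = n
        · rw [hin', hn'] at h; exact hbt.ne h
        · exact hbA (h ▸ hin i (by omega) (by omega))
  · intro i j hij hj
    have hi : i ≤ n := by omega
    by_cases hjn : j ≤ n
    · simp only [hi, hjn, if_true]
      constructor
      · intro h
        by_contra hcon
        exact hchord i j (by omega) hjn h
      · rintro (h | h)
        · rw [← h]; exact hadj i (by omega)
        · omega
    · simp only [hi, hjn, if_true, if_false]
      constructor
      · intro h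
        by_contra hcon
        exact hb _ (hin i (by omega) (by omega)) h
      · rintro (h | h)
        · rw [show i = n by omega, hn']; exact hbt
        · rw [h.1, h0]; exact hbs

theorem IsChordal.simplicial {W : Type} {H : SimpleGraph W} (hH : IsChordal H) :
    Simplicial H := by
  classical
  intro S
  induction S using Finset.strongInduction with
  | H S ih =>
  intro hne
  by_cases hcl : ∀ x ∈ S, ∀ y ∈ S, x ≠ y → H.Adj x y
  · obtain ⟨v, hv⟩ := hne
    exact ⟨v, hv, fun x hx y hy _ _ hxy => hcl x hx y hy hxy⟩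
  push Not at hcl
  obtain ⟨x₀, hx₀, y₀, hy₀, hne₀, hnadj₀⟩ := hcl
  let good : Finset W → Prop := fun A => A.Nonempty ∧ ConnIn H A ∧
    ∃ b ∈ S, b ∉ A ∧ ∀ x ∈ A, ¬ H.Adj x b
  have hgood : (S.powerset.filter good).Nonempty := by
    refine ⟨{x₀}, Finset.mem_filter.2 ⟨by simpa using hx₀, by simp, ?_, y₀, hy₀, ?_, ?_⟩⟩
    · intro a ha a' ha'
      rw [Finset.mem_singleton.1 ha, Finset.mem_singleton.1 ha']
    · simpa using hne₀.symm
    · simpa using hnadj₀
  obtain ⟨A, hA, hmax⟩ := (S.powerset.filter good).exists_max_image Finset.card hgood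
  obtain ⟨hAS, hAne, hconn, b₀, hb₀S, hb₀A, hb₀⟩ := Finset.mem_filter.1 hA
  rw [Finset.mem_powerset] at hAS
  let B : Finset W := S.filter (fun b => b ∉ A ∧ ∀ x ∈ A, ¬ H.Adj x b)
  have hBS : B ⊂ S := by
    obtain ⟨a, ha⟩ := hAne
    refine Finset.ssubset_iff_of_subset (Finset.filter_subset _ _) |>.2 ⟨a, hAS ha, ?_⟩
    intro h
    exact (Finset.mem_filter.1 h).2.1 ha
  have hfull : ∀ s ∈ S, s ∉ A → ∀ a ∈ A, H.Adj s a → ∀ b ∈ B, H.Adj s b := by
    intro s hs hsA a ha hsa b hb
    by_contra hsb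
    obtain ⟨hbS, hbA, hb'⟩ := Finset.mem_filter.1 hb
    have hmem : insert s A ∈ S.powerset.filter good := by
      refine Finset.mem_filter.2 ⟨?_, by simp, hconn.insert ha hsa, b, hbS, ?_, ?_⟩
      · rw [Finset.mem_powerset]; exact Finset.insert_subset hs hAS
      · intro h
        rcases Finset.mem_insert.1 h with rfl | h
        · exact hb' a ha hsa.symm
        · exact hbA h
      · intro x hx
        rcases Finset.mem_insert.1 hx with rfl | hx
        · exact hsb
        · exact hb' x hx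
    have := hmax _ hmem
    rw [Finset.card_insert_of_notMem hsA] at this
    omega
  obtain ⟨v, hvB, hv⟩ := ih B hBS ⟨b₀, Finset.mem_filter.2 ⟨hb₀S, hb₀A, hb₀⟩⟩
  obtain ⟨hvS, hvA, hv'⟩ := Finset.mem_filter.1 hvB
  have hcase : ∀ x ∈ S, H.Adj v x → x ∉ A ∧ (x ∈ B ∨ ∃ a ∈ A, H.Adj x a) := by
    intro x hx hvx
    have hxA : x ∉ A := fun h => hv' x h hvx.symm
    refine ⟨hxA, ?_⟩
    by_cases h : ∃ a ∈ A, H.Adj x a
    · exact Or.inr h
    · push Not at h
      exact Or.inl (Finset.mem_filter.2 ⟨hx, hxA, fun a ha h' => h a ha h'.symm⟩)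
  refine ⟨v, hvS, fun x hx y hy hvx hvy hxy => ?_⟩
  obtain ⟨hxA, hx'⟩ := hcase x hx hvx
  obtain ⟨hyA, hy'⟩ := hcase y hy hvy
  rcases hx' with hxB | ⟨a, ha, hxa⟩ <;> rcases hy' with hyB | ⟨a', ha', hya⟩
  · exact hv x hxB y hyB hvx hvy hxy
  · exact (hfull y hy hyA a' ha' hya x hxB).symm
  · exact hfull x hx hxA a ha hxa y hyB
  · exact adj_of_chordal hH hconn ha ha' hxa hya.symm hyA hxy hvx.symm hvy.symm hvA hv'

end Pool.Agent.P.MP_80f86c_co
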