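import Pool.Agent.P.MP_80f86c_co.Acyclic
import Pool.Agent.P.MP_80f86c_co.Chordal

/-!
A finite tripartite graph in which every edge lies in many triangles and which has no induced
cycle of length between `4` and `N`.
-/

namespace Pool.Agent.P.MP_80f86c_co

open SimpleGraph
open scoped Pointwise

variable {A : Type} [Group A]

variable (A) in
/-- the finite group -/
abbrev G1 (N : ℕ) : Type := U A ⧸ K1 A N

/-- vertex groups -/
noncomputable def Bs (N : ℕ) (k : Fin 3) : Subgroup (G1 A N) :=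
  (Hs k).map (QuotientGroup.mk' (K1 A N))

/-- the vertex of type `k` through `g` -/
noncomputable def vert {N : ℕ} (k : Fin 3) (g : G1 A N) : Fin 3 × Set (G1 A N) :=
  (k, g • ((Bs N k : Subgroup (G1 A N)) : Set (G1 A N)))

lemma vert_fst {N : ℕ} (k : Fin 3) (g : G1 A N) : (vert k g).1 = k := rfl

lemma vert_eq_iff {N : ℕ} {k : Fin 3} {g g' : G1 A N} :
    vert k g = vert k g' ↔ g⁻¹ * g' ∈ Bs N k := by
  simp only [vert, Prod.mk.injEq, true_and]
  exact leftCoset_eq_iff _

variable (A) in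
/-- the coset graph -/
noncomputable def cosetGraph (N : ℕ) : SimpleGraph (Fin 3 × Set (G1 A N)) where
  Adj v w := v.1 ≠ w.1 ∧ ∃ g, v = vert v.1 g ∧ w = vert w.1 g
  symm := ⟨fun _ _ ⟨h, g, h1, h2⟩ => ⟨h.symm, g, h2, h1⟩⟩
  loopless := ⟨fun _ h => h.1 rfl⟩

lemma adj_vert {N : ℕ} {k l : Fin 3} (h : k ≠ l) (g : G1 A N) :
    (cosetGraph A N).Adj (vert k g) (vert l g) := ⟨h, g, rfl, rfl⟩

lemma cosetGraph_cliqueFree (N : ℕ) : (cosetGraph A N).CliqueFree 4 := by
  have : (cosetGraph A N).Colorable 3 := ⟨Coloring.mk (fun v => v.1) fun h => h.1⟩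
  exact this.cliqueFree (by norm_num)

lemma vert_mul_gen {N : ℕ} {k l : Fin 3} (h : l ≠ k) (g : G1 A N) (a : A) :
    vert k (g * QuotientGroup.mk' (K1 A N) (gen l a)) = vert k g := by
  rw [eq_comm, vert_eq_iff, inv_mul_cancel_left]
  exact ⟨gen l a, gen_mem_Hs h a, rfl⟩

lemma card_le_commonNeighbors [Finite A] (N : ℕ) (v w) (h : (cosetGraph A N).Adj v w) :
    Nat.card A ≤ ((cosetGraph A N).commonNeighbors v w).ncard := by
  obtain ⟨hne, g, hv, hw⟩ := h
  rw [← Set.ncard_univ]
  refine Set.ncard_le_ncard_of_injOn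
    (fun a => vert (third v.1 w.1) (g * QuotientGroup.mk' (K1 A N) (gen (third v.1 w.1) a)))
    ?_ ?_ (Set.toFinite _)
  · intro a _
    rw [mem_commonNeighbors]
    have h1 := adj_vert (third_ne_left hne).symm
      (g * QuotientGroup.mk' (K1 A N) (gen (third v.1 w.1) a))
    have h2 := adj_vert (third_ne_right hne).symm
      (g * QuotientGroup.mk' (K1 A N) (gen (third v.1 w.1) a))
    rw [vert_mul_gen (third_ne_left hne), ← hv] at h1
    rw [vert_mul_gen (third_ne_right hne), ← hw] at h2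
    exact ⟨h1, h2⟩
  · intro a _ b _ hab
    obtain ⟨u, ⟨u, rfl⟩, hu⟩ := vert_eq_iff.1 hab
    rw [mul_inv_rev, mul_assoc, inv_mul_cancel_left, ← map_inv, ← map_mul] at hu
    have h1 := proj_eq_one_of_mem_K0 (third v.1 w.1) (QuotientGroup.eq.1 hu).1
    rw [map_mul, map_inv, proj_ret, map_mul, map_inv, proj_gen_self, proj_gen_self] at h1
    simpa [inv_mul_eq_one] using h1

theorem cosetGraph_no_indCycle [Finite A] {N n : ℕ} (h4 : 4 ≤ n) (hn : n ≤ N) :
    ¬ cycleGraph n ⊴ cosetGraph A N := by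
  rintro ⟨f⟩
  have hpos : 0 < n := by omega
  let v : ℕ → Fin 3 × Set (G1 A N) := fun i => f ⟨i % n, Nat.mod_lt _ hpos⟩
  have hadj : ∀ i, (cosetGraph A N).Adj (v i) (v (i + 1)) := by
    intro i
    refine f.map_rel_iff.2 ((cycleGraph_adj_iff (by omega) _ _).2 ?_)
    simp only
    have h1 := Nat.mod_lt i hpos
    by_cases h : i % n + 1 < n
    · left
      rw [Nat.add_mod, Nat.mod_eq_of_lt (show 1 < n by omega), Nat.mod_eq_of_lt h]
    · right; right; right
      refine ⟨?_, by omega⟩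
      rw [Nat.add_mod, Nat.mod_eq_of_lt (show 1 < n by omega),
        show i % n + 1 = n by omega, Nat.mod_self]
  have hY : ∀ p q, (cosetGraph A N).Adj p q → ∃ g, p = vert p.1 g ∧ q = vert q.1 g :=
    fun _ _ h => h.2
  choose! Y hY1 hY2 using hY
  let y : ℕ → G1 A N := fun i => Y (v i) (v (i + 1))
  have hy1 : ∀ i, v i = vert (v i).1 (y i) := fun i => hY1 _ _ (hadj i)
  have hy2 : ∀ i, v (i + 1) = vert (v (i + 1)).1 (y i) := fun i => hY2 _ _ (hadj i)
  have hyn : y n = y 0 := by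
    simp only [y, v, Nat.mod_self, Nat.zero_mod, Nat.add_mod_left, zero_add]
  let κ : ℕ → Fin 3 := fun i => (v (i + 1)).1
  have hu : ∀ i, ∃ u ∈ Hs (κ i), QuotientGroup.mk' (K1 A N) u = (y i)⁻¹ * y (i + 1) :=
    fun i => vert_eq_iff.1 ((hy2 i).symm.trans (hy1 (i + 1)))
  choose u hu1 hu2 using hu
  let x : ℕ → U A := fun i => Nat.rec 1 (fun i p => p * u i) i
  have hx : ∀ i, x (i + 1) = x i * u i := fun _ => rfl
  have hxy : ∀ i, QuotientGroup.mk' (K1 A N) (x i) = (y 0)⁻¹ * y i := by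
    intro i
    induction i with
    | zero => simp [x]
    | succ i ih => rw [hx, map_mul, ih, hu2]; group
  obtain ⟨i, a, b, hi, hab⟩ := acyclic (A := A) (by omega) hn κ x (fun i _ => (hadj (i + 1)).1)
    (fun i _ => by rw [hx, inv_mul_cancel_left]; exact hu1 i) rfl (by
      rw [← QuotientGroup.eq_one_iff]
      have := hxy n
      rw [hyn, inv_mul_cancel] at this
      exact this)
  have hz : y (i + 1) * QuotientGroup.mk' (K1 A N) (gen (third (κ i) (κ (i + 1))) a) =
      y (i + 2) * QuotientGroup.mk' (K1 A N) (gen (third (κ (i + 1)) (κ (i + 2))) b) := by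
    have h1 : QuotientGroup.mk' (K1 A N) (x (i + 1) * gen (third (κ i) (κ (i + 1))) a) =
        QuotientGroup.mk' (K1 A N) (x (i + 2) * gen (third (κ (i + 1)) (κ (i + 2))) b) :=
      QuotientGroup.eq.2 hab
    rw [map_mul _ (x (i + 1)), map_mul _ (x (i + 2)), hxy (i + 1), hxy (i + 2), mul_assoc,
      mul_assoc] at h1
    exact mul_left_cancel h1
  have h1 : v (i + 1) = vert (κ i)
      (y (i + 1) * QuotientGroup.mk' (K1 A N) (gen (third (κ i) (κ (i + 1))) a)) := by
    rw [vert_mul_gen (third_ne_left (hadj (i + 1)).1)]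
    exact hy1 (i + 1)
  have h3 : v (i + 3) = vert (κ (i + 2))
      (y (i + 1) * QuotientGroup.mk' (K1 A N) (gen (third (κ i) (κ (i + 1))) a)) := by
    rw [hz, vert_mul_gen (third_ne_right (hadj (i + 2)).1)]
    exact hy2 (i + 2)
  have hm1 : (i + 1) % n = i + 1 := Nat.mod_eq_of_lt (by omega)
  have hm3 : (i + 3) % n = i + 3 ∨ ((i + 3) % n = 0 ∧ i + 3 = n) := by
    by_cases h : i + 3 < n
    · exact Or.inl (Nat.mod_eq_of_lt h)
    · have : i + 3 = n := by omega
      exact Or.inr ⟨by rw [this, Nat.mod_self], this⟩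
  by_cases hκ : κ i = κ (i + 2)
  · have : v (i + 1) = v (i + 3) := by rw [h1, h3, hκ]
    have := congrArg Fin.val (f.injective this)
    simp only at this
    omega
  · have : (cosetGraph A N).Adj (v (i + 1)) (v (i + 3)) := by
      rw [h1, h3]; exact adj_vert hκ _
    have := (cycleGraph_adj_iff (by omega) _ _).1 (f.map_rel_iff.1 this)
    simp only at this
    omega

lemma mul_ec_le_kc {V : Type} [Finite V] (G : SimpleGraph V) {C : ℕ}
    (h : ∀ a b, G.Adj a b → C ≤ (G.commonNeighbors a b).ncard) : C * ec G ≤ 27 * kc 3 G := by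
  classical
  have := Fintype.ofFinite V
  let P : Finset (V × V) := Finset.univ.filter fun p => G.Adj p.1 p.2
  let D : Finset (Σ _ : V × V, V) := P.sigma fun p => (G.commonNeighbors p.1 p.2).toFinset
  have h1 : ec G ≤ P.card := by
    unfold ec
    rw [← SimpleGraph.coe_edgeFinset, Set.ncard_coe_finset]
    refine Finset.card_le_card_of_surjOn (fun p => s(p.1, p.2)) ?_
    intro e he
    induction e using Sym2.ind with
    | h a b => exact ⟨(a, b), by simpa [P] using he, rfl⟩
  have h2 : P.card * C ≤ D.card := by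
    rw [Finset.card_sigma, ← smul_eq_mul]
    refine Finset.card_nsmul_le_sum _ _ _ fun p hp => ?_
    rw [← Set.ncard_eq_toFinset_card']
    exact h _ _ (by simpa [P] using hp)
  have h3 : D.card ≤ 27 * (G.cliqueFinset 3).card := by
    refine Finset.card_le_mul_card_image_of_maps_to
      (f := fun d : (Σ _ : V × V, V) => ({d.1.1, d.1.2, d.2} : Finset V)) ?_ 27 ?_
    · rintro ⟨⟨a, b⟩, c⟩ hd
      simp only [D, P, Finset.mem_sigma, Finset.mem_filter, Finset.mem_univ, true_and,
        Set.mem_toFinset, mem_commonNeighbors] at hd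
      exact mem_cliqueFinset_iff.2 (is3Clique_triple_iff.2 ⟨hd.1, hd.2.1, hd.2.2⟩)
    · intro t ht
      have hc : (t ×ˢ t ×ˢ t).card = 27 := by
        simp [Finset.card_product, (mem_cliqueFinset_iff.1 ht).card_eq]
      rw [← hc]
      refine Finset.card_le_card_of_injOn (fun d => (d.1.1, d.1.2, d.2)) ?_ ?_
      · rintro ⟨⟨a, b⟩, c⟩ hd
        simp only [Finset.coe_filter, Set.mem_ofPred_eq] at hd
        simp [← hd.2]
      · rintro ⟨⟨a, b⟩, c⟩ _ ⟨⟨a', b'⟩, c'⟩ _ hd
        simp only [Prod.mk.injEq] at hd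
        obtain ⟨rfl, rfl, rfl⟩ := hd
        rfl
  have h4 : kc 3 G = (G.cliqueFinset 3).card := by
    unfold kc
    rw [← coe_cliqueFinset, Set.ncard_coe_finset]
  rw [h4]
  calc C * ec G ≤ P.card * C := by rw [mul_comm]; exact Nat.mul_le_mul_right _ h1
    _ ≤ _ := h2.trans h3

/-- `K_4`-free with no induced cycle of length between `4` and `N` -/
def Loc (N : ℕ) (V : Type) (G : SimpleGraph V) : Prop :=
  G.CliqueFree 4 ∧ ∀ n, 4 ≤ n → n ≤ N → ¬ cycleGraph n ⊴ G

lemma loc_of_card_lt (N : ℕ) {V : Type} [Fintype V] (G : SimpleGraph V) (h : Fintype.card V < 4) :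
    Loc N V G := by
  refine ⟨cliqueFree_of_card_lt h, fun n hn _ hc => ?_⟩
  exact free_of_card_lt (cycleGraph n) G (by simp; omega) hc.isContained

lemma closed_loc (N : ℕ) : Closed (Loc N) where
  sum := by
    intro V V' G H hG hH
    refine ⟨?_, fun n h4 hn => not_ind_sum cycleGraph_preconnected (hG.2 n h4 hn) (hH.2 n h4 hn)⟩
    by_contra hc
    rw [not_cliqueFree_iff_top_isContained] at hc
    refine free_sum preconnected_top ?_ ?_ hc
    · exact fun h => h.not_cliqueFree hG.1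
    · exact fun h => h.not_cliqueFree hH.1
  edge := loc_of_card_lt N _ (by simp)
  empty := loc_of_card_lt N _ (by simp)

lemma free_of_loc {W : Type} [Fintype W] {F : SimpleGraph W} (hF : ¬ TreewidthLeTwo F)
    (V : Type) (G : SimpleGraph V) (hG : Loc (Fintype.card W) V G) : F.Free G := by
  intro h
  obtain ⟨f, hf⟩ := isContained_iff_exists_le_comap.1 h
  refine hF ⟨G.comap f, hf, fun n hn hc => ?_, hG.1.comap (Embedding.comap f G).isContained⟩
  refine hG.2 n hn ?_ (hc.trans (Embedding.comap f G).isIndContained)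
  obtain ⟨g⟩ := hc
  simpa using Fintype.card_le_of_injective _ g.injective

lemma exists_ach_loc (N C : ℕ) : ∃ e k, 0 < e ∧ C * e ≤ k ∧ Ach (Loc N) 3 e k := by
  let A := Multiplicative (ZMod (27 * C + 1))
  have hA : Nat.card A = 27 * C + 1 := by simp [A]
  refine ⟨ec (cosetGraph A N), kc 3 (cosetGraph A N), ?_, ?_, _, inferInstance, cosetGraph A N,
    ⟨cosetGraph_cliqueFree N, fun n h4 hn => cosetGraph_no_indCycle h4 hn⟩, rfl, le_rfl⟩
  · exact (Set.ncard_pos (Set.toFinite _)).2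
      ⟨s(vert 0 1, vert 1 1), adj_vert (show (0 : Fin 3) ≠ 1 by decide) 1⟩
  · have := mul_ec_le_kc (cosetGraph A N) (card_le_commonNeighbors N)
    rw [hA] at this
    nlinarith [Nat.zero_le (ec (cosetGraph A N))]

open Asymptotics Filter in
theorem linear_isLittleO_mex {W : Type} [Fintype W] {F : SimpleGraph W}
    (hF : ¬ TreewidthLeTwo F) :
    (fun m : ℕ => (m : ℝ)) =o[atTop] (fun m : ℕ => (mex 3 m F : ℝ)) := by
  refine IsLittleO.of_bound fun ε hε => ?_
  obtain ⟨C, hC⟩ := exists_nat_ge (2 / ε)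
  obtain ⟨e, k, he, hk, hach⟩ := exists_ach_loc (Fintype.card W) C
  filter_upwards [eventually_ge_atTop e] with m hm
  have h1 := (hach.div (closed_loc _) (by norm_num) m).le_mex (by norm_num) (free_of_loc hF)
  have h2 : m ≤ 2 * e * (m / e) := by
    have h3 : 1 ≤ m / e := (Nat.one_le_div_iff he).2 hm
    have h4 := Nat.div_add_mod m e
    have h5 := Nat.mod_lt m he
    nlinarith
  have h3 : C * m ≤ 2 * mex 3 m F := by
    calc C * m ≤ C * (2 * e * (m / e)) := Nat.mul_le_mul_left _ h2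
      _ = 2 * (m / e * (C * e)) := by ring
      _ ≤ 2 * (m / e * k) := by gcongr
      _ ≤ _ := by gcongr
  have h4 : (C : ℝ) * m ≤ 2 * mex 3 m F := by exact_mod_cast h3
  simp only [Real.norm_natCast]
  rw [div_le_iff₀ hε] at hC
  have h5 : (0 : ℝ) ≤ m := Nat.cast_nonneg _
  nlinarith

end Pool.Agent.P.MP_80f86c_co
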