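import Mathlib

/-!
Definitions for the problem on clique counts in `F`-free graphs with `m` edges.
-/

namespace Pool.Agent.P.MP_80f86c_co

open SimpleGraph

/-- `mex s m F` is the largest number of copies of `K_s` (that is, `s`-element vertex sets spanning
a clique) in a finite `F`-free graph with exactly `m` edges; the number of vertices is not
restricted. (It is `0` when no such graph exists.) -/
noncomputable def mex (s m : ℕ) {W : Type} (F : SimpleGraph W) : ℕ :=
  sSup {k : ℕ | ∃ (n : ℕ) (G : SimpleGraph (Fin n)),
    F.Free G ∧ G.edgeSet.ncard = m ∧ (G.cliqueSet s).ncard = k}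

/-- A graph is chordal if it has no induced cycle of length at least `4`. -/
def IsChordal {W : Type} (H : SimpleGraph W) : Prop :=
  ∀ n : ℕ, 4 ≤ n → ¬ (cycleGraph n ⊴ H)

/-- Treewidth at most two, in its chordal-completion form: `F` is a spanning subgraph of a
chordal graph with no clique on `4` vertices. -/
def TreewidthLeTwo {W : Type} (F : SimpleGraph W) : Prop :=
  ∃ H : SimpleGraph W, F ≤ H ∧ IsChordal H ∧ H.CliqueFree 4

end Pool.Agent.P.MP_80f86c_co
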