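import Pool.Agent.P.MP_80f86c_co.Linear

/-!
Cycles and the graphs `K_{a,b}` with `a ≤ 2` have a simplicial elimination order of width two.
-/

namespace Pool.Agent.P.MP_80f86c_co

open SimpleGraph

lemma simplicial_of_rank {W : Type} {H : SimpleGraph W} (r : W → ℕ) (hr : Function.Injective r)
    (h : ∀ v x y, H.Adj v x → H.Adj v y → r x < r v → r y < r v → x ≠ y → H.Adj x y) :
    Simplicial H := by
  intro S hS
  obtain ⟨v, hv, hmax⟩ := S.exists_max_image r hS
  refine ⟨v, hv, fun x hx y hy hvx hvy hxy => h v x y hvx hvy ?_ ?_ hxy⟩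
  · exact lt_of_le_of_ne (hmax x hx) (fun h => hvx.ne (hr h).symm)
  · exact lt_of_le_of_ne (hmax y hy) (fun h => hvy.ne (hr h).symm)

lemma cliqueFree_four_of_rank {W : Type} {H : SimpleGraph W} (r : W → ℕ)
    (hr : Function.Injective r)
    (h : ∀ v, ∃ a b, ∀ x, H.Adj v x → r x < r v → x = a ∨ x = b) : H.CliqueFree 4 := by
  classical
  intro S hS
  have hne : S.Nonempty := by rw [← Finset.card_pos, hS.card_eq]; omega
  obtain ⟨v, hv, hmax⟩ := S.exists_max_image r hne
  obtain ⟨a, b, hab⟩ := h v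
  have hsub : S.erase v ⊆ {a, b} := by
    intro x hx
    obtain ⟨hxv, hxS⟩ := Finset.mem_erase.1 hx
    have := hab x (hS.isClique hv hxS hxv.symm)
      (lt_of_le_of_ne (hmax x hxS) (fun h => hxv (hr h)))
    simpa using this
  have h1 := Finset.card_le_card hsub
  rw [Finset.card_erase_of_mem hv, hS.card_eq] at h1
  have := Finset.card_le_two (a := a) (b := b)
  omega

/-- the fan: a path together with a vertex adjacent to everything -/
def fan (n : ℕ) : SimpleGraph (Fin n) where
  Adj i j := i ≠ j ∧ (i.val = 0 ∨ j.val = 0 ∨ i.val + 1 = j.val ∨ j.val + 1 = i.val)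
  symm := ⟨fun i j h => ⟨h.1.symm, by have := h.2; omega⟩⟩
  loopless := ⟨fun i h => h.1 rfl⟩

lemma cycleGraph_le_fan (n : ℕ) : cycleGraph n ≤ fan n := by
  intro i j h
  refine ⟨h.ne, ?_⟩
  rw [cycleGraph_adj'] at h
  have hi := i.isLt
  have hj := j.isLt
  rcases h with h | h
  · by_cases hij : j ≤ i
    · rw [Fin.coe_sub_iff_le.2 hij] at h
      omega
    · rw [Fin.coe_sub_iff_lt.2 (not_le.1 hij)] at h
      omega
  · by_cases hij : i ≤ j
    · rw [Fin.coe_sub_iff_le.2 hij] at h
      omega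
    · rw [Fin.coe_sub_iff_lt.2 (not_le.1 hij)] at h
      omega

lemma fan_simplicial (n : ℕ) : Simplicial (fan n) := by
  refine simplicial_of_rank (fun i => i.val) Fin.val_injective ?_
  intro v x y hx hy hxv hyv hxy
  refine ⟨hxy, ?_⟩
  have := hx.2
  have := hy.2
  have : x.val ≠ y.val := fun h => hxy (Fin.ext h)
  omega

lemma fan_cliqueFree (n : ℕ) : (fan n).CliqueFree 4 := by
  refine cliqueFree_four_of_rank (fun i => i.val) Fin.val_injective ?_
  intro v
  have hv := v.isLt
  refine ⟨⟨0, by omega⟩, ⟨v.val - 1, by omega⟩, fun x hx hxv => ?_⟩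
  have := hx.2
  simp only [Fin.ext_iff]
  omega

/-- the book: the left side is a clique, the right side is independent -/
def book (a b : ℕ) : SimpleGraph (Fin a ⊕ Fin b) where
  Adj x y := x ≠ y ∧ (x.isLeft ∨ y.isLeft)
  symm := ⟨fun _ _ h => ⟨h.1.symm, h.2.symm⟩⟩
  loopless := ⟨fun _ h => h.1 rfl⟩

lemma completeBipartite_le_book (a b : ℕ) :
    completeBipartiteGraph (Fin a) (Fin b) ≤ book a b := by
  intro x y h
  refine ⟨h.ne, ?_⟩
  rcases h with h | h
  · exact Or.inl h.1
  · exact Or.inr h.2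

/-- rank on the book -/
def bookRank (a b : ℕ) : Fin a ⊕ Fin b → ℕ := Sum.elim (fun i => i.val) (fun j => a + j.val)

lemma bookRank_injective (a b : ℕ) : Function.Injective (bookRank a b) := by
  rintro (x | x) (y | y) h <;> simp only [bookRank, Sum.elim_inl, Sum.elim_inr] at h
  · rw [Fin.ext h]
  · have := x.isLt; omega
  · have := y.isLt; omega
  · rw [Fin.ext (show x.val = y.val by omega)]

lemma book_lower {a b : ℕ} {v x : Fin a ⊕ Fin b} (h : (book a b).Adj v x)
    (hr : bookRank a b x < bookRank a b v) : x.isLeft := by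
  rcases x with x | x
  · rfl
  · rcases v with v | v
    · simp only [bookRank, Sum.elim_inl, Sum.elim_inr] at hr
      have := v.isLt; omega
    · have := h.2; simp at this

lemma book_simplicial (a b : ℕ) : Simplicial (book a b) :=
  simplicial_of_rank (bookRank a b) (bookRank_injective a b)
    fun _ _ _ hx _ hxv _ hxy => ⟨hxy, Or.inl (book_lower hx hxv)⟩

lemma book_cliqueFree {a : ℕ} (ha1 : 1 ≤ a) (ha : a ≤ 2) (b : ℕ) : (book a b).CliqueFree 4 := by
  refine cliqueFree_four_of_rank (bookRank a b) (bookRank_injective a b) ?_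
  intro v
  refine ⟨Sum.inl ⟨0, by omega⟩, Sum.inl ⟨a - 1, by omega⟩, fun x hx hxv => ?_⟩
  have := book_lower hx hxv
  rcases x with x | x
  · have := x.isLt
    simp only [Sum.inl.injEq, Fin.ext_iff]
    omega
  · simp at this

lemma completeBipartite_preconnected {a b : ℕ} (ha : 1 ≤ a) (hb : 1 ≤ b) :
    (completeBipartiteGraph (Fin a) (Fin b)).Preconnected := by
  have h1 : ∀ (x : Fin a) (y : Fin b),
      (completeBipartiteGraph (Fin a) (Fin b)).Reachable (Sum.inl x) (Sum.inr y) :=
    fun x y => Adj.reachable (by simp)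
  rintro (x | x) (y | y)
  · exact (h1 x ⟨0, hb⟩).trans (h1 y ⟨0, hb⟩).symm
  · exact h1 x y
  · exact (h1 y x).symm
  · exact (h1 ⟨0, ha⟩ x).symm.trans (h1 ⟨0, ha⟩ y)

lemma isContained_top_of_card_le {W : Type} [Fintype W] (F : SimpleGraph W) {s : ℕ}
    (h : Fintype.card W ≤ s) : F ⊑ (⊤ : SimpleGraph (Fin s)) :=
  isContained_top_iff.2 (Function.Embedding.nonempty_of_card_le (by simpa using h))

end Pool.Agent.P.MP_80f86c_co
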