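import Pool.Agent.P.MP_80f86c_co.NormGraph
import Pool.Agent.P.MP_80f86c_co.Fans

/-!
Lower bound of order `m^{6/5}` for `K_{3,b}`-free graphs, from norm graphs over fields containing
the field with `r ^ 2` elements.
-/

namespace Pool.Agent.P.MP_80f86c_co

open SimpleGraph Finset

lemma ncard_fixed_le {K : Type} [Field K] {q : ℕ} (hq : 1 < q) :
    {u : K | u ^ q = u}.ncard ≤ q := by
  classical
  have hP := FiniteField.X_pow_card_sub_X_ne_zero K hq
  have hset : {u : K | u ^ q = u} =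
      ((Polynomial.X ^ q - Polynomial.X : Polynomial K).roots.toFinset : Set K) := by
    ext y
    simp [Polynomial.mem_roots hP, sub_eq_zero]
  rw [hset, Set.ncard_coe_finset]
  exact (Multiset.toFinset_card_le _).trans
    ((Polynomial.card_roots' _).trans (FiniteField.X_pow_card_sub_X_natDegree_eq K hq).le)

lemma exists_normGraph {p e : ℕ} [Fact p.Prime] (he : e ≠ 0) (j : ℕ) {s b : ℕ} (hs : 3 ≤ s)
    (hsr : s ≤ (p ^ e) ^ 2 + 1) (hb : 2 * (p ^ e - 1) ^ 2 < b) :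
    ∃ m k, m ≤ ((p ^ e) ^ (2 * j + 1)) ^ 5 ∧
      ((p ^ e) ^ (2 * j + 1)) ^ 2 * ((((p ^ e) ^ (2 * j + 1)) ^ 2 - 1) *
        (((p ^ e) ^ (2 * j + 1)) ^ 2 - s)) ≤ 2 * s ^ 3 * k ∧
      Ach (fun _ G => (completeBipartiteGraph (Fin 3) (Fin b)).Free G) s m k := by
  classical
  have hp : 1 < p := (Fact.out : p.Prime).one_lt
  set r := p ^ e with hr
  have hr1 : 1 < r := Nat.one_lt_pow he hp
  set q := r ^ (2 * j + 1) with hq
  have hq1 : 1 < q := Nat.one_lt_pow (by omega) hr1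
  have hq' : q = p ^ (e * (2 * j + 1)) := by rw [hq, hr, ← pow_mul]
  let K := GaloisField p (2 * e * (2 * j + 1))
  let k₂ := GaloisField p (2 * e)
  have := Fintype.ofFinite K
  have := Fintype.ofFinite k₂
  have hK : Fintype.card K = q ^ 2 := by
    rw [← Nat.card_eq_fintype_card, GaloisField.card p _ (by positivity), hq', ← pow_mul]
    congr 1; ring
  have hk₂ : Fintype.card k₂ = r ^ 2 := by
    rw [← Nat.card_eq_fintype_card, GaloisField.card p _ (by positivity), hr, ← pow_mul]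
    congr 1; ring
  obtain ⟨ι⟩ : Nonempty (k₂ →ₐ[ZMod p] K) := by
    refine FiniteField.nonempty_algHom_of_finrank_dvd ?_
    rw [GaloisField.finrank p (by positivity), GaloisField.finrank p (by positivity)]
    exact Dvd.intro _ rfl
  let σ : K →+* K := iterateFrobenius K p (e * (2 * j + 1))
  have hσ : ∀ x, σ x = x ^ q := fun x => by rw [hq']; rfl
  have hσσ : ∀ x, σ (σ x) = x := fun x => by
    rw [hσ, hσ, ← pow_mul, ← sq, ← hK, FiniteField.pow_card]
  obtain ⟨T₀, hT₀, -, hT₀c⟩ := Finset.exists_subsuperset_card_eq (n := s - 1)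
    (subset_univ ({0, 1} : Finset k₂)) (by rw [card_pair zero_ne_one]; omega)
    (by rw [card_univ, hk₂]; omega)
  let T : Finset K := T₀.image ι
  have hTc : #T + 1 = s := by
    have hinj : Function.Injective ι := ι.injective
    rw [card_image_of_injective _ hinj, hT₀c]; omega
  have hT : ∀ t ∈ T, ∀ t' ∈ T, t ≠ t' → nm σ (r - 1) (t - t') = 1 := by
    intro t ht t' ht' htt
    obtain ⟨d, -, rfl⟩ := mem_image.1 ht
    obtain ⟨d', -, rfl⟩ := mem_image.1 ht'
    have hd : d - d' ≠ 0 := sub_ne_zero.2 fun h => htt (by rw [h])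
    have h1 : (d - d') ^ q = (d - d') ^ r := by
      rw [hq, pow_succ, pow_mul r, pow_mul (d - d'), ← hk₂, FiniteField.pow_card_pow]
    have h2 : ((d - d') * (d - d') ^ r) ^ (r - 1) = 1 := by
      rw [← pow_succ', ← pow_mul, ← FiniteField.pow_card_sub_one_eq_one _ hd, hk₂]
      congr 1
      obtain ⟨r', hr'⟩ : ∃ r', r = r' + 1 := ⟨r - 1, by omega⟩
      rw [hr', Nat.add_sub_cancel]
      exact (Nat.sub_eq_of_eq_add (by ring)).symm
    rw [nm, hσ, ← map_sub, ← map_pow, ← map_mul, ← map_pow, h1, h2, map_one]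
  have h0 : (0 : K) ∈ T := mem_image.2 ⟨0, hT₀ (by simp), map_zero ι⟩
  have h1 : (1 : K) ∈ T := mem_image.2 ⟨1, hT₀ (by simp), map_one ι⟩
  refine ⟨ec (normGraph σ (r - 1)), kc s (normGraph σ (r - 1)), ?_, ?_, K × K, inferInstance,
    normGraph σ (r - 1), normGraph_free (by omega) hb, rfl, le_rfl⟩
  · refine ec_normGraph_le.trans ?_
    have : {u : K | σ u = u}.ncard ≤ q := by
      simp only [hσ]; exact ncard_fixed_le hq1
    rw [Nat.card_eq_fintype_card, hK]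
    calc q ^ 2 * {u : K | σ u = u}.ncard * q ^ 2 ≤ q ^ 2 * q * q ^ 2 := by gcongr
      _ = q ^ 5 := by ring
  · have := kc_normGraph_ge hσσ h0 h1 hT
    rw [hTc, hK] at this
    refine le_trans ?_ this
    gcongr
    omega

open Asymptotics Filter in
theorem rpow_isBigO_mex_K3b {s b r : ℕ} (hs : 3 ≤ s) (hr : IsPrimePow r) (hsr : s ≤ r ^ 2 + 1)
    (hb : 2 * (r - 1) ^ 2 < b) :
    (fun m : ℕ => (m : ℝ) ^ (6 / 5 : ℝ)) =O[atTop]
      (fun m : ℕ => (mex s m (completeBipartiteGraph (Fin 3) (Fin b)) : ℝ)) := by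
  have hr2 : 2 ≤ r := hr.two_le
  obtain ⟨p, e, hp, he, rfl⟩ := (isPrimePow_nat_iff r).1 hr
  have : Fact p.Prime := ⟨hp⟩
  set r := p ^ e with hrdef
  refine IsBigO.of_bound (8 * s ^ 3 * r ^ 12) ?_
  filter_upwards [eventually_ge_atTop (r ^ 15)] with m hm
  have hex : ∃ j, m < (r ^ (2 * (j + 1) + 1 + 2)) ^ 5 := by
    refine ⟨m, lt_of_lt_of_le (Nat.lt_pow_self (show 1 < r by omega)) ?_⟩
    rw [← pow_mul r (2 * (m + 1) + 1 + 2) 5]
    exact Nat.pow_le_pow_right (show 0 < r by omega) (by omega)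
  classical
  have hlt := Nat.find_spec hex
  set j := Nat.find hex with hj
  have hle : (r ^ (2 * (j + 1) + 1)) ^ 5 ≤ m := by
    rcases Nat.eq_zero_or_pos j with h0 | h0
    · rw [h0, ← pow_mul r]; exact hm
    · have := Nat.find_min hex (m := j - 1) (by omega)
      rw [show 2 * (j - 1 + 1) + 1 + 2 = 2 * (j + 1) + 1 by omega] at this
      exact not_lt.1 this
  obtain ⟨m₀, k, hm₀, hk, hach⟩ := exists_normGraph (p := p) he.ne' (j + 1) hs hsr hb
  rw [← hrdef] at hm₀ hk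
  set q := r ^ (2 * (j + 1) + 1) with hq
  have hcl := closed_free (completeBipartite_preconnected (a := 3) (b := b) (by omega) (by omega))
    (by simp)
  have h1 := (hach.pad hcl (by omega) (hm₀.trans hle)).le_mex (by omega) (fun _ _ h => h)
  have hq3 : r ^ 3 ≤ q := Nat.pow_le_pow_right (by omega) (by omega)
  have hq2 : 2 * s ≤ q ^ 2 := by
    have h2 : r ^ 2 * 16 ≤ r ^ 2 * r ^ 4 :=
      Nat.mul_le_mul_left _ (Nat.pow_le_pow_left hr2 4)
    have h3 : (r ^ 3) ^ 2 ≤ q ^ 2 := Nat.pow_le_pow_left hq3 2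
    have h4 : 4 ≤ r ^ 2 := Nat.pow_le_pow_left hr2 2
    have h5 : r ^ 2 * r ^ 4 = (r ^ 3) ^ 2 := by ring
    omega
  have h2 : q ^ 6 ≤ 8 * s ^ 3 * mex s m (completeBipartiteGraph (Fin 3) (Fin b)) := by
    calc q ^ 6 = q ^ 2 * (q ^ 2 * q ^ 2) := by ring
      _ ≤ q ^ 2 * ((2 * (q ^ 2 - 1)) * (2 * (q ^ 2 - s))) :=
          Nat.mul_le_mul_left _ (Nat.mul_le_mul (by omega) (by omega))
      _ = 4 * (q ^ 2 * ((q ^ 2 - 1) * (q ^ 2 - s))) := by ring
      _ ≤ 4 * (2 * s ^ 3 * k) := Nat.mul_le_mul_left _ hk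
      _ = 8 * s ^ 3 * k := by ring
      _ ≤ _ := Nat.mul_le_mul_left _ h1
  have h3 : (m : ℝ) ≤ ((q : ℝ) * r ^ 2) ^ 5 := by
    rw [pow_add r _ 2] at hlt
    exact_mod_cast hlt.le
  have h4 : (m : ℝ) ^ (6 / 5 : ℝ) ≤ ((q : ℝ) * r ^ 2) ^ 6 := by
    refine (Real.rpow_le_rpow (by positivity) h3 (by norm_num)).trans (le_of_eq ?_)
    rw [← Real.rpow_natCast, ← Real.rpow_mul (by positivity), ← Real.rpow_natCast]
    norm_num
  have h5 : (q : ℝ) ^ 6 ≤ 8 * s ^ 3 * mex s m (completeBipartiteGraph (Fin 3) (Fin b)) := by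
    exact_mod_cast h2
  rw [Real.norm_natCast, Real.norm_of_nonneg (by positivity)]
  calc (m : ℝ) ^ (6 / 5 : ℝ) ≤ ((q : ℝ) * r ^ 2) ^ 6 := h4
    _ = (q : ℝ) ^ 6 * r ^ 12 := by ring
    _ ≤ 8 * s ^ 3 * mex s m (completeBipartiteGraph (Fin 3) (Fin b)) * r ^ 12 := by gcongr
    _ = _ := by ring

end Pool.Agent.P.MP_80f86c_co
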