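import Pool.Agent.P.MP_80f86c_co.Linear

/-!
Upper bound `O(m^{6/5})` for clique counts in `K_{3,b}`-free graphs with `m` edges.
-/

namespace Pool.Agent.P.MP_80f86c_co

open SimpleGraph Finset

section

variable {V : Type} [Fintype V] [DecidableEq V] (G : SimpleGraph V) [DecidableRel G.Adj]

/-- any three distinct vertices have at most `b` common neighbours -/
def Codeg3 (b : ℕ) : Prop :=
  ∀ x y z : V, x ≠ y → x ≠ z → y ≠ z →
    #(univ.filter fun w => G.Adj x w ∧ G.Adj y w ∧ G.Adj z w) ≤ b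

omit [DecidableEq V] in
lemma codeg3_of_free {b : ℕ} (h : (completeBipartiteGraph (Fin 3) (Fin b)).Free G) :
    Codeg3 G b := by
  intro x y z hxy hxz hyz
  by_contra hlt
  push Not at hlt
  apply h
  obtain ⟨T, hT, hcard⟩ := Finset.exists_subset_card_eq hlt.le
  let g : Fin b → V := fun j => (T.equivFin.symm (Fin.cast hcard.symm j) : V)
  have hg : ∀ j, G.Adj x (g j) ∧ G.Adj y (g j) ∧ G.Adj z (g j) := fun j =>
    (Finset.mem_filter.1 (hT (T.equivFin.symm (Fin.cast hcard.symm j)).2)).2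
  have hginj : Function.Injective g := fun i j hij => by
    have := T.equivFin.symm.injective (Subtype.ext hij)
    exact Fin.cast_injective _ this
  have hadj : ∀ (i : Fin 3) j, G.Adj (![x, y, z] i) (g j) := by
    intro i j
    fin_cases i
    · exact (hg j).1
    · exact (hg j).2.1
    · exact (hg j).2.2
  have hinj : Function.Injective ![x, y, z] := by
    intro i j hij
    fin_cases i <;> fin_cases j <;> simp_all
  refine ⟨⟨⟨Sum.elim ![x, y, z] g, ?_⟩, ?_⟩⟩
  · rintro (i | i) (j | j) hij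
    · simp at hij
    · exact hadj i j
    · exact (hadj j i).symm
    · simp at hij
  · rintro (i | i) (j | j) hij
    · rw [hinj hij]
    · exact absurd hij (hadj i j).ne
    · exact absurd hij.symm (hadj j i).ne
    · rw [hginj hij]

/-- neighbours inside `S` -/
def nb (S : Finset V) (v : V) : Finset V := S.filter (G.Adj v)

/-- ordered adjacent pairs of neighbours inside `S` -/
def tri (S : Finset V) (v : V) : Finset (V × V) :=
  (nb G S v ×ˢ nb G S v).filter fun p => G.Adj p.1 p.2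

variable {G}

lemma tri_sq_le {b : ℕ} (h : Codeg3 G b) (S : Finset V) (v : V) :
    #(tri G S v) ^ 2 ≤ (b + 1) * #(nb G S v) ^ 3 := by
  set N := nb G S v with hN
  have h1 : #(tri G S v) = ∑ x ∈ N, #(N.filter (G.Adj x)) := by
    rw [tri, ← hN, card_filter, sum_product]
    exact sum_congr rfl fun x _ => (card_filter _ _).symm
  have h2 : ∑ x ∈ N, #(N.filter (G.Adj x)) ^ 2 =
      ∑ p ∈ N ×ˢ N, #(N.filter fun x => G.Adj x p.1 ∧ G.Adj x p.2) := by
    simp only [card_filter, sq, sum_mul_sum, sum_product]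
    rw [sum_comm]
    refine sum_congr rfl fun y _ => ?_
    rw [sum_comm]
    refine sum_congr rfl fun z _ => sum_congr rfl fun x _ => ?_
    by_cases h1 : G.Adj x y <;> by_cases h2 : G.Adj x z <;> simp [h1, h2]
  have h3 : ∀ p ∈ N ×ˢ N, #(N.filter fun x => G.Adj x p.1 ∧ G.Adj x p.2) ≤
      b + if p.1 = p.2 then #N else 0 := by
    rintro ⟨y, z⟩ hp
    obtain ⟨hy, hz⟩ := mem_product.1 hp
    by_cases hyz : y = z
    · simp only [hyz, if_true]
      exact (card_filter_le _ _).trans (Nat.le_add_left _ _)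
    · simp only [hyz, if_false, add_zero]
      refine le_trans (card_le_card ?_)
        (h v y z (mem_filter.1 hy).2.ne (mem_filter.1 hz).2.ne hyz)
      intro x hx
      obtain ⟨hx1, hx2, hx3⟩ := mem_filter.1 hx
      exact mem_filter.2 ⟨mem_univ _, (mem_filter.1 hx1).2, hx2.symm, hx3.symm⟩
  have h4 : ∑ p ∈ N ×ˢ N, (b + if p.1 = p.2 then #N else 0) = (b + 1) * #N ^ 2 := by
    rw [sum_add_distrib, sum_const, card_product, sum_product]
    have : ∀ y ∈ N, ∑ z ∈ N, (if y = z then #N else 0) = #N := fun y hy => by simp [hy]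
    rw [sum_congr rfl this, sum_const]
    simp only [smul_eq_mul]
    ring
  have h5 := (sum_le_sum h3).trans h4.le
  rw [h1]
  calc (∑ x ∈ N, #(N.filter (G.Adj x))) ^ 2
      ≤ #N * ∑ x ∈ N, #(N.filter (G.Adj x)) ^ 2 := sq_sum_le_card_mul_sum_sq
    _ ≤ #N * ((b + 1) * #N ^ 2) := by rw [h2]; exact Nat.mul_le_mul_left _ h5
    _ = (b + 1) * #N ^ 3 := by ring

lemma sum_nb_cube_le {b : ℕ} (h : Codeg3 G b) (S : Finset V) :
    ∑ v ∈ S, #(nb G S v) ^ 3 ≤ (b + 3) * #S ^ 3 := by
  have h2 : ∑ v ∈ S, #(nb G S v) ^ 3 =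
      ∑ x ∈ S, ∑ y ∈ S, ∑ z ∈ S, #(S.filter fun v => G.Adj x v ∧ G.Adj y v ∧ G.Adj z v) := by
    have : ∀ v ∈ S, #(nb G S v) ^ 3 = ∑ x ∈ S, ∑ y ∈ S, ∑ z ∈ S,
        if G.Adj x v ∧ G.Adj y v ∧ G.Adj z v then 1 else 0 := by
      intro v _
      rw [pow_three, nb, card_filter, sum_mul_sum, sum_mul]
      refine sum_congr rfl fun x _ => ?_
      rw [mul_sum]
      refine sum_congr rfl fun y _ => ?_
      rw [mul_sum]
      refine sum_congr rfl fun z _ => ?_
      by_cases h1 : G.Adj v x <;> by_cases h2 : G.Adj v y <;> by_cases h3 : G.Adj v z <;>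
        simp [h1, h2, h3, G.adj_comm _ v]
    rw [sum_congr rfl this, sum_comm]
    refine sum_congr rfl fun x _ => ?_
    rw [sum_comm]
    refine sum_congr rfl fun y _ => ?_
    rw [sum_comm]
    exact sum_congr rfl fun z _ => (card_filter _ _).symm
  have h3 : ∀ x y z, #(S.filter fun v => G.Adj x v ∧ G.Adj y v ∧ G.Adj z v) ≤
      b + (if x = y then #S else 0) + (if x = z then #S else 0) + (if y = z then #S else 0) := by
    intro x y z
    have h0 := card_filter_le S fun v => G.Adj x v ∧ G.Adj y v ∧ G.Adj z v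
    by_cases hxy : x = y
    · simp only [hxy, if_true] at h0 ⊢; omega
    by_cases hxz : x = z
    · simp only [hxz, if_true] at h0 ⊢; omega
    by_cases hyz : y = z
    · simp only [hyz, if_true] at h0 ⊢; omega
    simp only [hxy, hxz, hyz, if_false, add_zero]
    exact le_trans (card_le_card (filter_subset_filter _ (subset_univ S))) (h x y z hxy hxz hyz)
  rw [h2]
  refine (sum_le_sum fun x _ => sum_le_sum fun y _ => sum_le_sum fun z _ => h3 x y z).trans ?_
  have e1 : ∀ x ∈ S, ∑ y ∈ S, ∑ z ∈ S, (b + (if x = y then #S else 0) +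
      (if x = z then #S else 0) + (if y = z then #S else 0)) = (b + 3) * #S ^ 2 := by
    intro x hx
    have e2 : ∀ y ∈ S, ∑ z ∈ S, (b + (if x = y then #S else 0) +
        (if x = z then #S else 0) + (if y = z then #S else 0)) =
        (b + 2) * #S + (if x = y then #S * #S else 0) := by
      intro y hy
      simp only [sum_add_distrib, sum_const, sum_ite_eq, hx, hy, if_true, smul_eq_mul]
      split_ifs <;> ring
    rw [sum_congr rfl e2]
    simp only [sum_add_distrib, sum_const, sum_ite_eq, hx, if_true, smul_eq_mul]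
    ring
  rw [sum_congr rfl e1, sum_const, smul_eq_mul]
  exact le_of_eq (by ring)

lemma sum_tri_le {b : ℕ} (h : Codeg3 G b) (S : Finset V) :
    ∑ v ∈ S, #(tri G S v) ≤ (b + 3) * #S ^ 2 := by
  refine Nat.pow_le_pow_iff_left (n := 2) (by norm_num) |>.1 ?_
  calc (∑ v ∈ S, #(tri G S v)) ^ 2 ≤ #S * ∑ v ∈ S, #(tri G S v) ^ 2 := sq_sum_le_card_mul_sum_sq
    _ ≤ #S * ∑ v ∈ S, (b + 1) * #(nb G S v) ^ 3 :=
        Nat.mul_le_mul_left _ (sum_le_sum fun v _ => tri_sq_le h S v)
    _ = #S * ((b + 1) * ∑ v ∈ S, #(nb G S v) ^ 3) := by rw [← mul_sum]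
    _ ≤ #S * ((b + 3) * ((b + 3) * #S ^ 3)) :=
        Nat.mul_le_mul_left _ (Nat.mul_le_mul (by omega) (sum_nb_cube_le h S))
    _ = ((b + 3) * #S ^ 2) ^ 2 := by ring

lemma triangles_le {b : ℕ} (h : Codeg3 G b) {r : ℕ} (hr : #G.edgeFinset ≤ r ^ 5) :
    #(G.cliqueFinset 3) ≤ 6 * (b + 3) * (#G.edgeFinset * r) := by
  set m := #G.edgeFinset with hm
  let L : Finset V := univ.filter fun v => G.degree v ≤ r ^ 2
  let H : Finset V := univ.filter fun v => ¬ G.degree v ≤ r ^ 2
  let f : (Σ _ : V, V × V) → Finset V := fun d => {d.1, d.2.1, d.2.2}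
  have hsub : G.cliqueFinset 3 ⊆ (L.sigma (tri G univ)).image f ∪ (H.sigma (tri G H)).image f := by
    intro t ht
    obtain ⟨x, y, z, hxy, hxz, hyz, rfl⟩ := is3Clique_iff.1 (mem_cliqueFinset_iff.1 ht)
    have key : ∀ x y z : V, G.Adj x y → G.Adj x z → G.Adj y z → x ∈ L →
        ({x, y, z} : Finset V) ∈ (L.sigma (tri G univ)).image f := by
      intro x y z hxy hxz hyz hx
      exact mem_image.2 ⟨⟨x, y, z⟩, by simp [tri, nb, hx, hxy, hxz, hyz], rfl⟩
    by_cases hx : x ∈ L
    · exact mem_union_left _ (key x y z hxy hxz hyz hx)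
    by_cases hy : y ∈ L
    · refine mem_union_left _ ?_
      rw [Finset.insert_comm]
      exact key y x z hxy.symm hyz hxz hy
    by_cases hz : z ∈ L
    · refine mem_union_left _ ?_
      rw [Finset.pair_comm, Finset.insert_comm]
      exact key z x y hxz.symm hyz.symm hxy hz
    have hx' : x ∈ H := by simpa [L, H] using hx
    have hy' : y ∈ H := by simpa [L, H] using hy
    have hz' : z ∈ H := by simpa [L, H] using hz
    exact mem_union_right _
      (mem_image.2 ⟨⟨x, y, z⟩, by simp [tri, nb, hx', hy', hz', hxy, hxz, hyz], rfl⟩)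
  have hdeg : ∑ v, G.degree v = 2 * m := G.sum_degrees_eq_twice_card_edges
  have hL : #(L.sigma (tri G univ)) ≤ (b + 3) * r * (2 * m) := by
    rw [card_sigma, ← hdeg, mul_sum]
    refine le_trans (sum_le_sum fun v hv => ?_) (sum_le_sum_of_subset (subset_univ L))
    have h1 := tri_sq_le h univ v
    have h2 : #(nb G univ v) = G.degree v := by
      rw [← card_neighborFinset_eq_degree, neighborFinset_eq_filter]; rfl
    have h3 : G.degree v ≤ r ^ 2 := (mem_filter.1 hv).2
    rw [h2] at h1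
    refine Nat.pow_le_pow_iff_left (n := 2) (by norm_num) |>.1 (h1.trans ?_)
    calc (b + 1) * G.degree v ^ 3 = (b + 1) * G.degree v * G.degree v ^ 2 := by ring
      _ ≤ (b + 3) ^ 2 * r ^ 2 * G.degree v ^ 2 :=
          Nat.mul_le_mul_right _ (Nat.mul_le_mul (by nlinarith) h3)
      _ = ((b + 3) * r * G.degree v) ^ 2 := by ring
  have hH1 : #H * r ^ 2 ≤ 2 * m := by
    rw [← hdeg, ← smul_eq_mul]
    refine (card_nsmul_le_sum H (fun v => G.degree v) _ fun v hv => ?_).trans
      (sum_le_sum_of_subset (subset_univ H))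
    exact (not_le.1 (mem_filter.1 hv).2).le
  have hH2 : #H ^ 2 ≤ 4 * (m * r) := by
    rcases Nat.eq_zero_or_pos r with rfl | hr0
    · have hm0 : m = 0 := by simpa using hr
      have : H = ∅ := by
        refine filter_eq_empty_iff.2 fun v _ => ?_
        have := single_le_sum (f := fun v => G.degree v) (fun _ _ => Nat.zero_le _) (mem_univ v)
        omega
      simp [this]
    · refine Nat.le_of_mul_le_mul_right (c := r ^ 4) ?_ (by positivity)
      calc #H ^ 2 * r ^ 4 = (#H * r ^ 2) ^ 2 := by ring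
        _ ≤ (2 * m) ^ 2 := Nat.pow_le_pow_left hH1 2
        _ = 4 * m * m := by ring
        _ ≤ 4 * m * r ^ 5 := Nat.mul_le_mul_left _ hr
        _ = 4 * (m * r) * r ^ 4 := by ring
  have hH : #(H.sigma (tri G H)) ≤ (b + 3) * (4 * (m * r)) := by
    rw [card_sigma]
    exact (sum_tri_le h H).trans (Nat.mul_le_mul_left _ hH2)
  have h1 := (card_le_card hsub).trans (card_union_le _ _)
  have h2 := card_image_le (s := L.sigma (tri G univ)) (f := f)
  have h3 := card_image_le (s := H.sigma (tri G H)) (f := f)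
  nlinarith

lemma kc_le_triangles {b : ℕ} (h : Codeg3 G b) {s : ℕ} (hs : 3 ≤ s) :
    kc s G ≤ #(G.cliqueFinset 3) * 2 ^ b := by
  classical
  have hsub : G.cliqueFinset s ⊆
      (G.cliqueFinset 3).biUnion fun T => (G.cliqueFinset s).filter (T ⊆ ·) := by
    intro t ht
    have ht' := mem_cliqueFinset_iff.1 ht
    obtain ⟨T, hT, hcard⟩ := Finset.exists_subset_card_eq (s := t) (n := 3) (ht'.card_eq ▸ hs)
    exact mem_biUnion.2 ⟨T, mem_cliqueFinset_iff.2 ⟨ht'.isClique.subset hT, hcard⟩,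
      mem_filter.2 ⟨ht, hT⟩⟩
  unfold kc
  rw [← coe_cliqueFinset, Set.ncard_coe_finset]
  refine (card_le_card hsub).trans (card_biUnion_le_card_mul _ _ _ fun T hT => ?_)
  obtain ⟨x, y, z, hxy, hxz, hyz, rfl⟩ := is3Clique_iff.1 (mem_cliqueFinset_iff.1 hT)
  have h1 := ncard_cliques_through_le G s {x, y, z}
    (univ.filter fun w => G.Adj x w ∧ G.Adj y w ∧ G.Adj z w : Finset V) (fun w hw => by
      simp only [coe_filter, mem_univ, true_and, Set.mem_ofPred_eq]
      exact ⟨hw x (by simp), hw y (by simp), hw z (by simp)⟩)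
  rw [Set.ncard_coe_finset] at h1
  refine le_trans (le_of_eq ?_)
    (h1.trans (Nat.pow_le_pow_right (by norm_num) (h x y z hxy.ne hxz.ne hyz.ne)))
  rw [← Set.ncard_coe_finset]
  congr 1
  ext t
  simp

end

open Asymptotics Filter in
theorem mex_K3b_isBigO {s : ℕ} (hs : 3 ≤ s) (b : ℕ) :
    (fun m : ℕ => (mex s m (completeBipartiteGraph (Fin 3) (Fin b)) : ℝ)) =O[atTop]
      (fun m : ℕ => (m : ℝ) ^ (6 / 5 : ℝ)) := by
  classical
  refine IsBigO.of_bound (12 * (b + 3) * 2 ^ b) ?_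
  filter_upwards [eventually_ge_atTop 1] with m hm
  have hm' : (1 : ℝ) ≤ m := by exact_mod_cast hm
  rw [Real.norm_natCast, Real.norm_of_nonneg (by positivity)]
  refine mex_le (by positivity) fun n G hF hG => ?_
  have hc := codeg3_of_free G hF
  have he : #G.edgeFinset = m := by
    rw [← hG, ec, ← SimpleGraph.coe_edgeFinset, Set.ncard_coe_finset]
  set ρ : ℝ := (m : ℝ) ^ (1 / 5 : ℝ) with hρ
  have hρ1 : 1 ≤ ρ := Real.one_le_rpow hm' (by norm_num)
  have hρ5 : ρ ^ 5 = m := by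
    rw [hρ, ← Real.rpow_natCast, ← Real.rpow_mul (by positivity)]; norm_num
  have hr : #G.edgeFinset ≤ ⌈ρ⌉₊ ^ 5 := by
    rw [he]
    have : (m : ℝ) ≤ (⌈ρ⌉₊ : ℝ) ^ 5 := by
      rw [← hρ5]; exact pow_le_pow_left₀ (by positivity) (Nat.le_ceil _) 5
    exact_mod_cast this
  have h1 := (kc_le_triangles hc hs).trans (Nat.mul_le_mul_right _ (triangles_le hc hr))
  rw [he] at h1
  have h2 : (⌈ρ⌉₊ : ℝ) ≤ 2 * ρ := by
    have := Nat.ceil_lt_add_one (show 0 ≤ ρ by positivity)
    linarith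
  have h3 : (m : ℝ) ^ (6 / 5 : ℝ) = m * ρ := by
    rw [hρ, show (6 / 5 : ℝ) = 1 + 1 / 5 by norm_num, Real.rpow_add (by positivity), Real.rpow_one]
  have h4 : (kc s G : ℝ) ≤ 6 * (b + 3) * (m * ⌈ρ⌉₊) * 2 ^ b := by exact_mod_cast h1
  rw [h3]
  calc (kc s G : ℝ) ≤ 6 * (b + 3) * (m * ⌈ρ⌉₊) * 2 ^ b := h4
    _ ≤ 6 * (b + 3) * (m * (2 * ρ)) * 2 ^ b := by gcongr
    _ = 12 * (b + 3) * 2 ^ b * (m * ρ) := by ring

end Pool.Agent.P.MP_80f86c_co
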