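import Pool.Agent.P.MP_80f86c_co.Basic

/-!
Graphs with a simplicial elimination order and no `K_4` embed into every graph all of whose edges
lie in many triangles; hence a linear upper bound for clique counts.
-/

namespace Pool.Agent.P.MP_80f86c_co

open SimpleGraph

/-- every nonempty finite vertex set has a vertex that is simplicial in the induced subgraph -/
def Simplicial {W : Type} (H : SimpleGraph W) : Prop :=
  ∀ S : Finset W, S.Nonempty → ∃ v ∈ S, ∀ x ∈ S, ∀ y ∈ S, H.Adj v x → H.Adj v y → x ≠ y →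
    H.Adj x y

lemma exists_embedding_on {W V : Type} [Fintype W] [Finite V] {H : SimpleGraph W}
    (hS : Simplicial H) (h4 : H.CliqueFree 4) {G : SimpleGraph V} {a₀ b₀ : V} (hab : G.Adj a₀ b₀)
    (hC : ∀ a b, G.Adj a b → Fintype.card W ≤ (G.commonNeighbors a b).ncard) (S : Finset W) :
    ∃ f : W → V, Set.InjOn f S ∧ (∀ x ∈ S, ∀ y ∈ S, H.Adj x y → G.Adj (f x) (f y)) ∧
      ∀ x, f x ∈ G.support := by
  classical
  induction S using Finset.strongInduction with
  | H S ih =>
  rcases S.eq_empty_or_nonempty with rfl | hne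
  · exact ⟨fun _ => a₀, by simp, by simp, fun _ => ⟨b₀, hab⟩⟩
  obtain ⟨v, hv, hsimp⟩ := hS S hne
  obtain ⟨f, hinj, hadj, hsupp⟩ := ih (S.erase v) (Finset.erase_ssubset hv)
  have hedge : ∃ a b, G.Adj a b ∧ ∀ x ∈ S.erase v, H.Adj v x → f x = a ∨ f x = b := by
    by_cases h0 : ∃ x ∈ S.erase v, H.Adj v x
    · obtain ⟨x, hx, hvx⟩ := h0
      by_cases h1 : ∃ y ∈ S.erase v, H.Adj v y ∧ y ≠ x
      · obtain ⟨y, hy, hvy, hyx⟩ := h1
        have hxy : H.Adj x y :=
          hsimp x (Finset.mem_of_mem_erase hx) y (Finset.mem_of_mem_erase hy) hvx hvy hyx.symm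
        refine ⟨f x, f y, hadj x hx y hy hxy, ?_⟩
        intro z hz hvz
        by_contra hcon
        push Not at hcon
        have hzx : z ≠ x := fun h => hcon.1 (by rw [h])
        have hzy : z ≠ y := fun h => hcon.2 (by rw [h])
        have hxz : H.Adj x z :=
          hsimp x (Finset.mem_of_mem_erase hx) z (Finset.mem_of_mem_erase hz) hvx hvz hzx.symm
        have hyz : H.Adj y z :=
          hsimp y (Finset.mem_of_mem_erase hy) z (Finset.mem_of_mem_erase hz) hvy hvz hzy.symm
        have h3 : H.IsNClique 3 {x, y, z} := is3Clique_triple_iff.2 ⟨hxy, hxz, hyz⟩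
        refine h4 _ (h3.insert (a := v) ?_)
        intro b hb
        simp only [Finset.mem_insert, Finset.mem_singleton] at hb
        rcases hb with rfl | rfl | rfl <;> assumption
      · push Not at h1
        obtain ⟨b, hb⟩ := hsupp x
        refine ⟨f x, b, hb, fun z hz hvz => Or.inl ?_⟩
        rw [h1 z hz hvz]
    · push Not at h0
      exact ⟨a₀, b₀, hab, fun x hx hvx => absurd hvx (h0 x hx)⟩
  obtain ⟨a, b, hab', hnb⟩ := hedge
  have hlt : ((S.erase v).image f : Set V).ncard < (G.commonNeighbors a b).ncard := by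
    refine lt_of_lt_of_le ?_ (hC a b hab')
    rw [Set.ncard_coe_finset]
    refine lt_of_le_of_lt Finset.card_image_le ?_
    rw [Finset.card_erase_of_mem hv]
    have := Finset.card_le_univ S
    have := hne.card_pos
    omega
  obtain ⟨c, hc, hcn⟩ := Set.exists_mem_notMem_of_ncard_lt_ncard hlt (Set.toFinite _)
  rw [mem_commonNeighbors] at hc
  have hcf : ∀ x ∈ S.erase v, f x ≠ c := by
    intro x hx h
    exact hcn (by rw [← h]; exact Finset.mem_coe.2 (Finset.mem_image_of_mem f hx))
  have hvc : ∀ x ∈ S.erase v, H.Adj v x → G.Adj c (f x) := by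
    intro x hx hvx
    rcases hnb x hx hvx with h | h <;> rw [h]
    · exact hc.1.symm
    · exact hc.2.symm
  refine ⟨Function.update f v c, ?_, ?_, ?_⟩
  · intro x hx y hy hxy
    by_cases hxv : x = v <;> by_cases hyv : y = v
    · rw [hxv, hyv]
    · subst hxv
      rw [Function.update_self, Function.update_of_ne hyv] at hxy
      exact absurd hxy.symm (hcf y (Finset.mem_erase.2 ⟨hyv, hy⟩))
    · subst hyv
      rw [Function.update_self, Function.update_of_ne hxv] at hxy
      exact absurd hxy (hcf x (Finset.mem_erase.2 ⟨hxv, hx⟩))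
    · rw [Function.update_of_ne hxv, Function.update_of_ne hyv] at hxy
      exact hinj (Finset.mem_coe.2 (Finset.mem_erase.2 ⟨hxv, hx⟩))
        (Finset.mem_coe.2 (Finset.mem_erase.2 ⟨hyv, hy⟩)) hxy
  · intro x hx y hy hxy
    by_cases hxv : x = v <;> by_cases hyv : y = v
    · rw [hxv, hyv] at hxy; exact absurd hxy (H.irrefl)
    · subst hxv
      rw [Function.update_self, Function.update_of_ne hyv]
      exact hvc y (Finset.mem_erase.2 ⟨hyv, hy⟩) hxy
    · subst hyv
      rw [Function.update_self, Function.update_of_ne hxv]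
      exact (hvc x (Finset.mem_erase.2 ⟨hxv, hx⟩) hxy.symm).symm
    · rw [Function.update_of_ne hxv, Function.update_of_ne hyv]
      exact hadj x (Finset.mem_erase.2 ⟨hxv, hx⟩) y (Finset.mem_erase.2 ⟨hyv, hy⟩) hxy
  · intro x
    by_cases hxv : x = v
    · subst hxv
      rw [Function.update_self]
      exact ⟨a, hc.1.symm⟩
    · rw [Function.update_of_ne hxv]; exact hsupp x

lemma isContained_of_many_triangles {W V : Type} [Fintype W] [Finite V] {H : SimpleGraph W}
    (hS : Simplicial H) (h4 : H.CliqueFree 4) {G : SimpleGraph V} {a₀ b₀ : V} (hab : G.Adj a₀ b₀)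
    (hC : ∀ a b, G.Adj a b → Fintype.card W ≤ (G.commonNeighbors a b).ncard) : H ⊑ G := by
  obtain ⟨f, hinj, hadj, -⟩ := exists_embedding_on hS h4 hab hC Finset.univ
  refine ⟨⟨⟨f, fun {x y} h => hadj x (Finset.mem_univ _) y (Finset.mem_univ _) h⟩, ?_⟩⟩
  intro x y h
  exact hinj (by simp) (by simp) h

/-- cliques through a fixed vertex set `T` are controlled by the common neighbourhood -/
lemma ncard_cliques_through_le {V : Type} [Finite V] (G : SimpleGraph V) (s : ℕ) (T : Finset V)
    (N : Set V) (hN : ∀ x, (∀ y ∈ T, G.Adj y x) → x ∈ N) :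
    {t | t ∈ G.cliqueSet s ∧ T ⊆ t}.ncard ≤ 2 ^ N.ncard := by
  classical
  have := Fintype.ofFinite V
  have h1 : {t | t ∈ G.cliqueSet s ∧ T ⊆ t}.ncard ≤
      (N.toFinset.powerset : Set (Finset V)).ncard := by
    refine Set.ncard_le_ncard_of_injOn (fun t => t \ T) ?_ ?_ (Set.toFinite _)
    · rintro t ⟨ht, hT⟩
      simp only [Finset.coe_powerset, Set.coe_toFinset, Set.mem_preimage, Set.mem_powerset_iff]
      intro x hx
      simp only [Finset.coe_sdiff, Set.mem_sdiff, Finset.mem_coe] at hx
      refine hN x fun y hy => ht.isClique (hT hy) hx.1 ?_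
      rintro rfl
      exact hx.2 hy
    · rintro t ⟨-, hT⟩ t' ⟨-, hT'⟩ h
      simp only at h
      rw [← Finset.sdiff_union_of_subset hT, ← Finset.sdiff_union_of_subset hT', h]
  rwa [Set.ncard_coe_finset, Finset.card_powerset, ← Set.ncard_eq_toFinset_card' N] at h1

lemma kc_le_linear {W : Type} [Fintype W] {F H : SimpleGraph W} (hFH : F ≤ H)
    (hS : Simplicial H) (h4 : H.CliqueFree 4) {s : ℕ} (hs : 2 ≤ s) {V : Type} [Finite V] :
    ∀ (m : ℕ) (G : SimpleGraph V), F.Free G → ec G = m → kc s G ≤ 2 ^ Fintype.card W * m := by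
  classical
  intro m
  induction m with
  | zero =>
    intro G _ hm
    have hG : G = ⊥ := by
      rw [← edgeSet_eq_empty]
      exact (Set.ncard_eq_zero (Set.toFinite _)).1 hm
    subst hG
    simp [kc, cliqueSet_bot (show 1 < s by omega)]
  | succ m ih =>
    intro G hF hm
    have hne : G.edgeSet.Nonempty := Set.nonempty_of_ncard_ne_zero (by unfold ec at hm; omega)
    obtain ⟨e, he⟩ := hne
    induction e using Sym2.ind with
    | h a₀ b₀ =>
    have hab : G.Adj a₀ b₀ := he
    have hex : ∃ a b, G.Adj a b ∧ (G.commonNeighbors a b).ncard < Fintype.card W := by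
      by_contra hcon
      push Not at hcon
      exact hF ((IsContained.of_le hFH).trans (isContained_of_many_triangles hS h4 hab hcon))
    obtain ⟨a, b, hab', hlt⟩ := hex
    set G' := G.deleteEdges {s(a, b)} with hG'
    have hF' : F.Free G' := fun h => hF (h.mono_right (deleteEdges_le _))
    have hm' : ec G' = m := by
      unfold ec at hm ⊢
      rw [hG', edgeSet_deleteEdges, Set.ncard_sdiff_singleton_of_mem (by exact hab'), hm]
      rfl
    have hsub : G.cliqueSet s ⊆ G'.cliqueSet s ∪ {t | t ∈ G.cliqueSet s ∧ {a, b} ⊆ t} := by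
      intro t ht
      by_cases h : ({a, b} : Finset V) ⊆ t
      · exact Or.inr ⟨ht, h⟩
      · refine Or.inl ⟨?_, ht.card_eq⟩
        intro x hx y hy hxy
        rw [hG', deleteEdges_adj]
        refine ⟨ht.isClique hx hy hxy, ?_⟩
        intro hmem
        apply h
        simp only [Set.mem_singleton_iff, Sym2.eq, Sym2.rel_iff', Prod.mk.injEq,
          Prod.swap_prod_mk] at hmem
        intro z hz
        simp only [Finset.mem_insert, Finset.mem_singleton] at hz
        rcases hmem with ⟨rfl, rfl⟩ | ⟨rfl, rfl⟩ <;> rcases hz with rfl | rfl <;> assumption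
    have h1 := (Set.ncard_le_ncard hsub (Set.toFinite _)).trans (Set.ncard_union_le _ _)
    have h2 := ncard_cliques_through_le G s {a, b} (G.commonNeighbors a b) (by
      intro x hx
      rw [mem_commonNeighbors]
      exact ⟨hx a (by simp), hx b (by simp)⟩)
    have h3 := ih G' hF' hm'
    have h5 : 2 ^ (G.commonNeighbors a b).ncard ≤ 2 ^ Fintype.card W :=
      Nat.pow_le_pow_right (by norm_num) hlt.le
    unfold kc at h3 ⊢
    rw [Nat.mul_succ]
    omega

lemma mex_le_linear {W : Type} [Fintype W] {F H : SimpleGraph W} (hFH : F ≤ H)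
    (hS : Simplicial H) (h4 : H.CliqueFree 4) {s : ℕ} (hs : 2 ≤ s) (m : ℕ) :
    (mex s m F : ℝ) ≤ 2 ^ Fintype.card W * m := by
  refine mex_le (by positivity) ?_
  intro n G hF hm
  exact_mod_cast kc_le_linear hFH hS h4 hs m G hF hm

open Asymptotics Filter in
lemma mex_isBigO_linear {W : Type} [Fintype W] {F H : SimpleGraph W} (hFH : F ≤ H)
    (hS : Simplicial H) (h4 : H.CliqueFree 4) {s : ℕ} (hs : 2 ≤ s) :
    (fun m : ℕ => (mex s m F : ℝ)) =O[atTop] (fun m : ℕ => (m : ℝ)) := by
  refine IsBigO.of_bound (2 ^ Fintype.card W) (Eventually.of_forall fun m => ?_)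
  simpa using mex_le_linear hFH hS h4 hs m

open Asymptotics Filter in
/-- a linear lower bound from one good graph -/
lemma linear_isBigO_mex {P : ∀ V : Type, SimpleGraph V → Prop} (hP : Closed P) {s e : ℕ}
    (hs : 2 ≤ s) {W : Type} {F : SimpleGraph W} (hF : ∀ V G, P V G → F.Free G)
    (h : Ach P s e 1) (he : 0 < e) :
    (fun m : ℕ => (m : ℝ)) =O[atTop] (fun m : ℕ => (mex s m F : ℝ)) := by
  refine IsBigO.of_bound (2 * e) ?_
  filter_upwards [eventually_ge_atTop e] with m hm
  have h1 := (h.div hP (by omega) m).le_mex hs hF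
  have h2 : m ≤ 2 * e * (m / e) := by
    have h3 : 1 ≤ m / e := (Nat.one_le_div_iff he).2 hm
    have h4 := Nat.div_add_mod m e
    have h5 := Nat.mod_lt m he
    nlinarith
  have h6 : m ≤ 2 * e * mex s m F := h2.trans (Nat.mul_le_mul_left _ (by simpa using h1))
  simp only [Real.norm_natCast]
  exact_mod_cast h6

open Asymptotics Filter in
/-- disjoint copies of `K_s` when `F` is connected with more than `s` vertices -/
lemma linear_isBigO_mex_of_connected {s : ℕ} (hs : 2 ≤ s) {W : Type} [Finite W]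
    {F : SimpleGraph W} (hF : F.Preconnected) (hW : s < Nat.card W) :
    (fun m : ℕ => (m : ℝ)) =O[atTop] (fun m : ℕ => (mex s m F : ℝ)) := by
  have hne : (⊤ : SimpleGraph (Fin s)).edgeSet.Nonempty :=
    ⟨s(⟨0, by omega⟩, ⟨1, by omega⟩), by simp [Fin.ext_iff]⟩
  refine linear_isBigO_mex (closed_free hF (by omega)) hs (fun _ _ h => h)
    (e := ec (⊤ : SimpleGraph (Fin s))) ⟨Fin s, inferInstance, ⊤, ?_, rfl, ?_⟩ ?_
  · exact free_of_card_lt _ _ (by simpa using hW)
  · refine (Set.ncard_pos (Set.toFinite _)).2 ⟨Finset.univ, ?_⟩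
    exact ⟨IsClique.top _, by simp⟩
  · exact (Set.ncard_pos (Set.toFinite _)).2 hne

end Pool.Agent.P.MP_80f86c_co
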