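import Pool.Agent.P.MP_80f86c_co.Basic

/-!
A power version of the projective norm graph over a field `K` with a ring involution `σ`.
Vertices are pairs `(A, u)`; `(A, u)` and `(B, v)` are adjacent when `A ≠ B`, `u` and `v` are fixed
by `σ` and `((A - B) * σ (A - B)) ^ h = u * v`.
-/

namespace Pool.Agent.P.MP_80f86c_co

open SimpleGraph Finset

variable {K : Type} [Field K] (σ : K →+* K) (h : ℕ)

/-- the power of the norm -/
def nm (z : K) : K := (z * σ z) ^ h

lemma nm_mul (x y : K) : nm σ h (x * y) = nm σ h x * nm σ h y := by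
  simp only [nm, map_mul]; ring

lemma nm_inv (x : K) : nm σ h x⁻¹ = (nm σ h x)⁻¹ := by
  simp only [nm, map_inv₀, ← inv_pow, mul_inv]

lemma nm_neg (x : K) : nm σ h (-x) = nm σ h x := by simp [nm]

lemma nm_ne_zero {x : K} (hx : x ≠ 0) : nm σ h x ≠ 0 :=
  pow_ne_zero _ (mul_ne_zero hx ((map_ne_zero σ).2 hx))

lemma nm_fixed (hσ : ∀ x, σ (σ x) = x) (x : K) : σ (nm σ h x) = nm σ h x := by
  simp only [nm, map_pow, map_mul, hσ, mul_comm]

/-- the norm graph -/
def normGraph : SimpleGraph (K × K) where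
  Adj p q := p.1 ≠ q.1 ∧ σ p.2 = p.2 ∧ σ q.2 = q.2 ∧ nm σ h (p.1 - q.1) = p.2 * q.2
  symm := ⟨fun p q ⟨h1, h2, h3, h4⟩ => ⟨h1.symm, h3, h2, by
    rw [← neg_sub, nm_neg, h4, mul_comm]⟩⟩
  loopless := ⟨fun _ hp => hp.1 rfl⟩

variable {σ h}

lemma snd_ne_zero {p q : K × K} (hpq : (normGraph σ h).Adj p q) : p.2 ≠ 0 ∧ q.2 ≠ 0 := by
  have := nm_ne_zero σ h (sub_ne_zero.2 hpq.1)
  rw [hpq.2.2.2] at this
  exact mul_ne_zero_iff.1 this

lemma eq_of_fst_eq {p q w : K × K} (hp : (normGraph σ h).Adj w p) (hq : (normGraph σ h).Adj w q)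
    (hpq : p.1 = q.1) : p = q := by
  refine Prod.ext hpq (mul_left_cancel₀ (snd_ne_zero hp).1 ?_)
  rw [← hp.2.2.2, ← hq.2.2.2, hpq]

lemma ncard_quadratic_le {a b c : K} (ha : a ≠ 0) :
    {y : K | a * y ^ 2 + b * y + c = 0}.Finite ∧
      {y : K | a * y ^ 2 + b * y + c = 0}.ncard ≤ 2 := by
  classical
  let P : Polynomial K := Polynomial.C a * Polynomial.X ^ 2 + Polynomial.C b * Polynomial.X +
    Polynomial.C c
  have hdeg : P.natDegree = 2 := Polynomial.natDegree_quadratic ha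
  have hP : P ≠ 0 := by
    intro h0; rw [h0] at hdeg; simp at hdeg
  have hset : {y : K | a * y ^ 2 + b * y + c = 0} = (P.roots.toFinset : Set K) := by
    ext y
    simp [Polynomial.mem_roots hP, P]
  rw [hset, Set.ncard_coe_finset]
  exact ⟨Finset.finite_toSet _,
    (Multiset.toFinset_card_le _).trans (hdeg ▸ Polynomial.card_roots' P)⟩

lemma two_circles {D E c d : K} (hD : D ≠ 0) (hE : E ≠ 0) (hDE : D ≠ E) :
    {y : K | (1 + D * y) * σ (1 + D * y) = c ∧ (1 + E * y) * σ (1 + E * y) = d}.ncard ≤ 2 := by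
  have ha : D * E * (σ D - σ E) ≠ 0 :=
    mul_ne_zero (mul_ne_zero hD hE) (sub_ne_zero.2 fun h => hDE (σ.injective h))
  obtain ⟨h1, h2⟩ := ncard_quadratic_le (b := σ E * (E * (c - 1) - D) - σ D * (D * (d - 1) - E))
    (c := σ E * (c - 1) - σ D * (d - 1)) ha
  refine (Set.ncard_le_ncard ?_ h1).trans h2
  rintro y ⟨hc, hd⟩
  simp only [map_add, map_one, map_mul] at hc hd
  simp only [Set.mem_ofPred_eq]
  rw [← hc, ← hd]
  ring

lemma card_nthRootsFinset_le (n : ℕ) (a : K) : #(Polynomial.nthRootsFinset n a) ≤ n := by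
  classical
  rw [Polynomial.nthRootsFinset_def]
  exact (Multiset.toFinset_card_le _).trans (Polynomial.card_nthRoots n a)

lemma common_le [Finite K] (hh : 0 < h) {p₁ p₂ p₃ : K × K} (h12 : p₁ ≠ p₂) (h13 : p₁ ≠ p₃)
    (h23 : p₂ ≠ p₃) :
    {w | (normGraph σ h).Adj w p₁ ∧ (normGraph σ h).Adj w p₂ ∧ (normGraph σ h).Adj w p₃}.ncard ≤
      2 * h ^ 2 := by
  classical
  have := Fintype.ofFinite K
  set S := {w | (normGraph σ h).Adj w p₁ ∧ (normGraph σ h).Adj w p₂ ∧ (normGraph σ h).Adj w p₃}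
    with hS
  rcases S.eq_empty_or_nonempty with h0 | ⟨w₀, hw₀⟩
  · simp [h0]
  have e12 : p₁.1 ≠ p₂.1 := fun h => h12 (eq_of_fst_eq hw₀.1 hw₀.2.1 h)
  have e13 : p₁.1 ≠ p₃.1 := fun h => h13 (eq_of_fst_eq hw₀.1 hw₀.2.2 h)
  have e23 : p₂.1 ≠ p₃.1 := fun h => h23 (eq_of_fst_eq hw₀.2.1 hw₀.2.2 h)
  set D := p₁.1 - p₂.1 with hD
  set E := p₁.1 - p₃.1 with hE
  let R := Polynomial.nthRootsFinset h (p₂.2 / p₁.2) ×ˢ Polynomial.nthRootsFinset h (p₃.2 / p₁.2)
  let Y : Finset K := R.biUnion fun c =>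
    {y : K | (1 + D * y) * σ (1 + D * y) = c.1 ∧ (1 + E * y) * σ (1 + E * y) = c.2}.toFinset
  have hY : #Y ≤ 2 * h ^ 2 := by
    refine (card_biUnion_le_card_mul _ _ 2 fun c _ => ?_).trans ?_
    · rw [← Set.ncard_eq_toFinset_card']
      exact two_circles (sub_ne_zero.2 e12) (sub_ne_zero.2 e13)
        (fun h => e23 (sub_right_injective h))
    · rw [card_product, mul_comm, sq]
      exact Nat.mul_le_mul_left _
        (Nat.mul_le_mul (card_nthRootsFinset_le _ _) (card_nthRootsFinset_le _ _))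
  refine le_trans ?_ hY
  rw [← Set.ncard_coe_finset]
  have key : ∀ w p : K × K, (normGraph σ h).Adj w p₁ → (normGraph σ h).Adj w p →
      ((1 + (p₁.1 - p.1) * (w.1 - p₁.1)⁻¹) * σ (1 + (p₁.1 - p.1) * (w.1 - p₁.1)⁻¹)) ^ h =
        p.2 / p₁.2 := by
    intro w p h1 h2
    have hne : w.1 - p₁.1 ≠ 0 := sub_ne_zero.2 h1.1
    have e : 1 + (p₁.1 - p.1) * (w.1 - p₁.1)⁻¹ = (w.1 - p.1) * (w.1 - p₁.1)⁻¹ := by
      field_simp; ring
    have := nm_mul σ h (w.1 - p.1) (w.1 - p₁.1)⁻¹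
    rw [nm_inv, h1.2.2.2, h2.2.2.2, ← e] at this
    rw [show ∀ z : K, (z * σ z) ^ h = nm σ h z from fun _ => rfl, this]
    have := (snd_ne_zero h1).1
    have := (snd_ne_zero h1).2
    field_simp
  refine Set.ncard_le_ncard_of_injOn (fun w => (w.1 - p₁.1)⁻¹) ?_ ?_ (Set.toFinite _)
  · rintro w ⟨h1, h2, h3⟩
    refine mem_coe.2 (mem_biUnion.2 ⟨(_, _), mem_product.2
      ⟨(Polynomial.mem_nthRootsFinset hh _).2 (key w p₂ h1 h2),
        (Polynomial.mem_nthRootsFinset hh _).2 (key w p₃ h1 h3)⟩, ?_⟩)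
    exact Set.mem_toFinset.2 ⟨rfl, rfl⟩
  · intro w hw w' hw' hww
    exact eq_of_fst_eq hw.1.symm hw'.1.symm (sub_left_injective (inv_injective hww))

lemma normGraph_free [Finite K] (hh : 0 < h) {b : ℕ} (hb : 2 * h ^ 2 < b) :
    (completeBipartiteGraph (Fin 3) (Fin b)).Free (normGraph σ h) := by
  rintro ⟨f⟩
  have hne : ∀ i j : Fin 3, i ≠ j → f (Sum.inl i) ≠ f (Sum.inl j) := fun i j hij h =>
    hij (Sum.inl_injective (f.injective h))
  have h1 := common_le (σ := σ) hh (hne 0 1 (by decide)) (hne 0 2 (by decide)) (hne 1 2 (by decide))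
  have hadj : ∀ i j, (normGraph σ h).Adj (f (Sum.inr j)) (f (Sum.inl i)) := fun i j =>
    f.toHom.map_rel (by simp)
  have h2 := Set.ncard_le_ncard_of_injOn (s := (Set.univ : Set (Fin b))) (fun j => f (Sum.inr j))
    (t := {w | (normGraph σ h).Adj w (f (Sum.inl 0)) ∧ (normGraph σ h).Adj w (f (Sum.inl 1)) ∧
      (normGraph σ h).Adj w (f (Sum.inl 2))})
    (fun j _ => ⟨hadj 0 j, hadj 1 j, hadj 2 j⟩)
    (fun i _ j _ hij => Sum.inr_injective (f.injective hij)) (Set.toFinite _)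
  rw [Set.ncard_univ, Nat.card_eq_fintype_card, Fintype.card_fin] at h2
  omega

lemma ec_normGraph_le [Finite K] :
    ec (normGraph σ h) ≤ Nat.card K * {u : K | σ u = u}.ncard * Nat.card K := by
  have h1 : (normGraph σ h).edgeSet ⊆ (fun x : (K × K) × K =>
      s(x.1, (x.2, nm σ h (x.1.1 - x.2) / x.1.2))) ''
        ((Set.univ ×ˢ {u : K | σ u = u}) ×ˢ Set.univ) := by
    intro e he
    induction e using Sym2.ind with
    | h p q =>
      have hpq : (normGraph σ h).Adj p q := he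
      refine ⟨(p, q.1), ⟨⟨Set.mem_univ _, hpq.2.1⟩, Set.mem_univ _⟩, ?_⟩
      simp only [hpq.2.2.2, mul_div_cancel_left₀ _ (snd_ne_zero hpq).1]
  refine (Set.ncard_le_ncard h1 (Set.toFinite _)).trans
    ((Set.ncard_image_le (Set.toFinite _)).trans ?_)
  rw [Set.ncard_prod, Set.ncard_prod, Set.ncard_univ]

variable (σ h) in
/-- the image of a point of the projective line under a Moebius map -/
def pt (a γ δ : K) : Option K → K × K
  | none => (a, (nm σ h γ)⁻¹)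
  | some t => (a - (γ * (γ * t + δ))⁻¹, (nm σ h (γ * t + δ))⁻¹)

lemma adj_pt (hσ : ∀ x, σ (σ x) = x) {T : Finset K}
    (hT : ∀ t ∈ T, ∀ t' ∈ T, t ≠ t' → nm σ h (t - t') = 1) {a γ δ : K} (hγ : γ ≠ 0)
    (hδ : ∀ t ∈ T, γ * t + δ ≠ 0) {x y : Option K} (hx : x ∈ insertNone T) (hy : y ∈ insertNone T)
    (hxy : x ≠ y) : (normGraph σ h).Adj (pt σ h a γ δ x) (pt σ h a γ δ y) := by
  have hfix : ∀ z, σ (nm σ h z)⁻¹ = (nm σ h z)⁻¹ := fun z => by rw [map_inv₀, nm_fixed σ h hσ]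
  have h0 : ∀ t ∈ T, (normGraph σ h).Adj (pt σ h a γ δ none) (pt σ h a γ δ (some t)) := by
    intro t ht
    refine ⟨?_, hfix _, hfix _, ?_⟩
    · simp [pt, hγ, hδ t ht, eq_comm (a := a), sub_eq_self]
    · simp only [pt, sub_sub_cancel, nm_inv, nm_mul, mul_inv]
  rcases x with _ | t <;> rcases y with _ | t'
  · exact absurd rfl hxy
  · exact h0 t' (by simpa using hy)
  · exact (h0 t (by simpa using hx)).symm
  · have ht : t ∈ T := by simpa using hx
    have ht' : t' ∈ T := by simpa using hy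
    have htt : t ≠ t' := fun h => hxy (by rw [h])
    have h1 := hδ t ht
    have h2 := hδ t' ht'
    have e : a - (γ * (γ * t + δ))⁻¹ - (a - (γ * (γ * t' + δ))⁻¹) =
        (t - t') * ((γ * t + δ)⁻¹ * (γ * t' + δ)⁻¹) := by
      field_simp; ring
    refine ⟨?_, hfix _, hfix _, ?_⟩
    · rw [← sub_ne_zero]
      simp only [pt, e]
      exact mul_ne_zero (sub_ne_zero.2 htt) (mul_ne_zero (inv_ne_zero h1) (inv_ne_zero h2))
    · simp only [pt, e, nm_inv, nm_mul, hT t ht t' ht' htt, one_mul]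

lemma kc_normGraph_ge [Fintype K] (hσ : ∀ x, σ (σ x) = x) {T : Finset K} (h0 : (0 : K) ∈ T)
    (h1 : (1 : K) ∈ T) (hT : ∀ t ∈ T, ∀ t' ∈ T, t ≠ t' → nm σ h (t - t') = 1) :
    Fintype.card K * ((Fintype.card K - 1) * (Fintype.card K - #T)) ≤
      2 * (#T + 1) ^ 3 * kc (#T + 1) (normGraph σ h) := by
  classical
  let P : Finset (Σ _ : K, Σ _ : K, K) := univ.sigma fun _ => (univ.erase 0).sigma fun γ =>
    univ \ T.image fun t => -(γ * t)
  have hP : ∀ x ∈ P, x.2.1 ≠ 0 ∧ ∀ t ∈ T, x.2.1 * t + x.2.2 ≠ 0 := by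
    rintro ⟨a, γ, δ⟩ hx
    simp only [P, mem_sigma, mem_univ, mem_erase, and_true, true_and, mem_sdiff, mem_image,
      not_exists, not_and] at hx
    exact ⟨hx.1, fun t ht h => hx.2 t ht (by linear_combination -h)⟩
  have hcard : Fintype.card K * ((Fintype.card K - 1) * (Fintype.card K - #T)) ≤ #P := by
    rw [card_sigma, sum_const, card_univ, smul_eq_mul, card_sigma]
    refine Nat.mul_le_mul_left _ ?_
    rw [← card_univ, ← card_erase_of_mem (mem_univ (0 : K)), ← smul_eq_mul]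
    refine card_nsmul_le_sum _ _ _ fun γ _ => ?_
    rw [card_sdiff_of_subset (subset_univ _)]
    exact Nat.sub_le_sub_left card_image_le _
  let cl : (Σ _ : K, Σ _ : K, K) → Finset (K × K) := fun x =>
    (insertNone T).image (pt σ h x.1 x.2.1 x.2.2)
  have hcl : ∀ x ∈ P, cl x ∈ (normGraph σ h).cliqueFinset (#T + 1) := by
    intro x hx
    obtain ⟨hγ, hδ⟩ := hP x hx
    refine mem_cliqueFinset_iff.2 ⟨?_, ?_⟩
    · intro p hp q hq hpq
      obtain ⟨u, hu, rfl⟩ := mem_image.1 hp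
      obtain ⟨v, hv, rfl⟩ := mem_image.1 hq
      exact adj_pt hσ hT hγ hδ hu hv fun h => hpq (by rw [h])
    · rw [card_image_of_injOn, card_insertNone]
      intro u hu v hv huv
      by_contra hne
      exact (adj_pt hσ hT hγ hδ hu hv hne).ne huv
  have hk : kc (#T + 1) (normGraph σ h) = #((normGraph σ h).cliqueFinset (#T + 1)) := by
    unfold kc
    rw [← coe_cliqueFinset, Set.ncard_coe_finset]
  rw [hk]
  refine hcard.trans (card_le_mul_card_image_of_maps_to hcl _ fun c hc => ?_)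
  have hc3 : #(c ×ˢ c ×ˢ c) = (#T + 1) ^ 3 := by
    simp only [card_product, (mem_cliqueFinset_iff.1 hc).card_eq]; ring
  rw [← hc3]
  refine card_le_mul_card_image_of_maps_to (f := fun x => (pt σ h x.1 x.2.1 x.2.2 none,
    pt σ h x.1 x.2.1 x.2.2 (some 0), pt σ h x.1 x.2.1 x.2.2 (some 1))) ?_ 2 ?_
  · intro x hx
    obtain ⟨-, rfl⟩ := mem_filter.1 hx
    exact mem_product.2 ⟨mem_image_of_mem _ none_mem_insertNone, mem_product.2
      ⟨mem_image_of_mem _ (some_mem_insertNone.2 h0),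
        mem_image_of_mem _ (some_mem_insertNone.2 h1)⟩⟩
  · intro tr _
    set F := (P.filter fun x => cl x = c).filter fun x => (pt σ h x.1 x.2.1 x.2.2 none,
      pt σ h x.1 x.2.1 x.2.2 (some 0), pt σ h x.1 x.2.1 x.2.2 (some 1)) = tr with hF
    rcases F.eq_empty_or_nonempty with he | ⟨⟨a, γ, δ⟩, hx⟩
    · simp [he]
    refine le_trans (card_le_card ?_) (card_le_two (a := ⟨a, γ, δ⟩) (b := ⟨a, -γ, -δ⟩))
    rintro ⟨a', γ', δ'⟩ hx'
    have e := (mem_filter.1 hx').2.trans (mem_filter.1 hx).2.symm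
    have hγ : γ ≠ 0 := (hP _ (mem_filter.1 (mem_filter.1 hx).1).1).1
    simp only [pt, Prod.mk.injEq, mul_zero, zero_add, mul_one] at e
    obtain ⟨⟨rfl, -⟩, ⟨e0, -⟩, ⟨e1, -⟩⟩ := e
    have e0' := inv_injective (sub_right_injective e0)
    have e1' := inv_injective (sub_right_injective e1)
    have e2 : γ' ^ 2 = γ ^ 2 := by linear_combination e1' - e0'
    rcases sq_eq_sq_iff_eq_or_eq_neg.1 e2 with rfl | rfl
    · rw [mul_left_cancel₀ hγ e0']; simp
    · have : δ' = -δ := mul_left_cancel₀ hγ (by linear_combination -e0')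
      rw [this]; simp

end Pool.Agent.P.MP_80f86c_co
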